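import Pool.Agent.T2h11.WMP.Gen

/-!
# The slopes of a part of the eigenvalues, and conjugates of Weil numbers of weight one
-/

set_option autoImplicit false

namespace Pool.Agent.T2h11.WMP

universe u v

open Module Pool.Agent.Y143 Pool.Agent.X302.MW

/-- The sum of the first values of a monotone function is the smallest one. -/
lemma sum_first_le {r : ℕ} {s : Fin r → ℝ} (hs : Monotone s) (T : Finset (Fin r)) :
    ∑ i ∈ Finset.univ.filter (fun i : Fin r => (i : ℕ) < T.card), s i ≤ ∑ i ∈ T, s i := by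
  classical
  let e := T.orderEmbOfFin rfl
  have hTr : T.card ≤ r := by
    have := Finset.card_le_univ T
    rwa [Fintype.card_fin] at this
  have he : ∀ i : Fin T.card, (i : ℕ) ≤ (e i : ℕ) := by
    rintro ⟨i, hi⟩
    induction i with
    | zero => exact Nat.zero_le _
    | succ i ih =>
      have h1 := ih (by omega)
      have h2 : e ⟨i, by omega⟩ < e ⟨i + 1, hi⟩ := e.strictMono (by simp [Fin.lt_def])
      have h3 := Fin.lt_def.1 h2
      show i + 1 ≤ (e ⟨i + 1, hi⟩ : ℕ)
      have h4 : i ≤ (e ⟨i, by omega⟩ : ℕ) := h1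
      omega
  have h1 : ∑ i ∈ T, s i = ∑ i : Fin T.card, s (e i) := by
    rw [← Finset.sum_image (f := s) (g := e) (s := Finset.univ)
      (fun i _ j _ h => e.injective h)]
    congr 1
    ext i
    constructor
    · intro hi
      rw [Finset.mem_image]
      have : i ∈ Set.range e := by
        rw [Finset.range_orderEmbOfFin]
        exact hi
      obtain ⟨j, hj⟩ := this
      exact ⟨j, Finset.mem_univ _, hj⟩
    · intro hi
      rw [Finset.mem_image] at hi
      obtain ⟨j, -, rfl⟩ := hi
      exact Finset.orderEmbOfFin_mem T rfl j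
  have h2 : ∑ i ∈ Finset.univ.filter (fun i : Fin r => (i : ℕ) < T.card), s i =
      ∑ i : Fin T.card, s (Fin.castLE hTr i) := by
    rw [← Finset.sum_image (f := s) (g := Fin.castLE hTr) (s := Finset.univ)
      (fun i _ j _ h => Fin.castLE_injective hTr h)]
    congr 1
    ext i
    simp only [Finset.mem_filter, Finset.mem_univ, true_and, Finset.mem_image]
    constructor
    · intro hi
      exact ⟨⟨i, hi⟩, Fin.ext rfl⟩
    · rintro ⟨j, rfl⟩
      exact j.2
  rw [h1, h2]
  exact Finset.sum_le_sum fun i _ => hs (Fin.le_def.2 (he i))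

/-- The inequality between the polygons for a part of the eigenvalues: `m β` of the eigenvalues
equal to `β`, for the `β` in `S`. -/
lemma part_slopes {Ω : Type u} {r : ℕ} {α : Fin r → Ω} {val : Ω → ℝ} {a : Fin r → ℕ} {h : ℕ}
    (hs : Monotone (fun i => val (α i))) (hh : Nat.card {i // a i = 0} = h)
    (hN : ∀ m : ℕ, ∑ i ∈ Finset.univ.filter (fun i : Fin r => (i : ℕ) < m), (a i : ℝ) ≤
      ∑ i ∈ Finset.univ.filter (fun i : Fin r => (i : ℕ) < m), val (α i))
    (S : Finset Ω) (m : Ω → ℕ) (hm : ∀ β ∈ S, m β ≤ Nat.card {i // α i = β}) :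
    ((∑ β ∈ S, m β : ℕ) : ℝ) - h ≤ ∑ β ∈ S, (m β : ℝ) * val β := by
  classical
  have hh' : (Finset.univ.filter (fun i : Fin r => a i = 0)).card = h := by
    rw [← hh, Nat.card_eq_fintype_card, Fintype.card_subtype]
  have hex : ∀ β : Ω, ∃ T : Finset (Fin r), (β ∈ S → T.card = m β) ∧ ∀ i ∈ T, α i = β := by
    intro β
    by_cases hβ : β ∈ S
    · have h1 := hm β hβ
      rw [Nat.card_eq_fintype_card, Fintype.card_subtype] at h1
      obtain ⟨T, hT, hTc⟩ := Finset.exists_subset_card_eq h1
      exact ⟨T, fun _ => hTc, fun i hi => (Finset.mem_filter.1 (hT hi)).2⟩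
    · exact ⟨∅, fun hc => absurd hc hβ, by simp⟩
  choose T hTc hTα using hex
  have hdisj : (S : Set Ω).PairwiseDisjoint T := by
    intro β _ γ _ hne
    rw [Function.onFun, Finset.disjoint_left]
    intro i hi hi'
    exact hne ((hTα β i hi).symm.trans (hTα γ i hi'))
  have hcard : (S.biUnion T).card = ∑ β ∈ S, m β := by
    rw [Finset.card_biUnion hdisj]
    exact Finset.sum_congr rfl fun β hβ => hTc β hβ
  have hsum : ∑ i ∈ S.biUnion T, val (α i) = ∑ β ∈ S, (m β : ℝ) * val β := by
    rw [Finset.sum_biUnion hdisj]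
    refine Finset.sum_congr rfl fun β hβ => ?_
    rw [Finset.sum_congr rfl (fun i hi => by rw [hTα β i hi] : ∀ i ∈ T β, val (α i) = val β),
      Finset.sum_const, hTc β hβ, nsmul_eq_mul]
  have h1 := sum_first_le hs (S.biUnion T)
  rw [hsum, hcard] at h1
  refine le_trans ?_ ((hN _).trans h1)
  -- the Hodge polygon
  have hle : (∑ β ∈ S, m β) ≤ r := by
    rw [← hcard]
    have := Finset.card_le_univ (S.biUnion T)
    rwa [Fintype.card_fin] at this
  set M := ∑ β ∈ S, m β with hM
  have h2 : (Finset.univ.filter (fun i : Fin r => (i : ℕ) < M)).card = M := by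
    have h3 : Finset.univ.filter (fun i : Fin r => (i : ℕ) < M) =
        Finset.univ.image (Fin.castLE hle) := by
      ext i
      simp only [Finset.mem_filter, Finset.mem_univ, true_and, Finset.mem_image]
      constructor
      · intro hi
        exact ⟨⟨i, hi⟩, Fin.ext rfl⟩
      · rintro ⟨j, rfl⟩
        exact j.2
    rw [h3, Finset.card_image_of_injective _ (Fin.castLE_injective hle), Finset.card_univ,
      Fintype.card_fin]
  have h4 : ∀ i : Fin r, (1 : ℝ) - (if a i = 0 then 1 else 0) ≤ a i := by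
    intro i
    by_cases hi : a i = 0
    · rw [if_pos hi, hi]; simp
    · rw [if_neg hi, sub_zero]
      exact_mod_cast Nat.one_le_iff_ne_zero.2 hi
  have h5 := Finset.sum_le_sum (s := Finset.univ.filter (fun i : Fin r => (i : ℕ) < M))
    (fun i _ => h4 i)
  rw [Finset.sum_sub_distrib, Finset.sum_const, h2, nsmul_eq_mul, mul_one] at h5
  have h6 : ∑ i ∈ Finset.univ.filter (fun i : Fin r => (i : ℕ) < M),
      (if a i = 0 then (1 : ℝ) else 0) ≤ h := by
    rw [← hh', Finset.card_filter]
    push_cast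
    exact Finset.sum_le_sum_of_subset_of_nonneg (Finset.filter_subset _ _)
      (fun i _ _ => by split_ifs <;> norm_num)
  linarith

/-- The conjugate `q / β` of a Weil number `β` of weight one. -/
lemma conj_weight_one {Ω : Type u} [Field Ω] [CharZero Ω] {q : ℕ} {β : Ω} (hβ0 : β ≠ 0)
    (hβ : IsWeilNumber q 1 β) : AreConjugate β ((q : Ω) / β) := by
  have hint : IsIntegral ℚ β := hβ.1.isIntegral
  let K := IntermediateField.adjoin ℚ ({β} : Set Ω)
  have hfin : FiniteDimensional ℚ K := IntermediateField.adjoin.finiteDimensional hint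
  let x : K := IntermediateField.AdjoinSimple.gen ℚ β
  have hx : (x : Ω) = β := IntermediateField.AdjoinSimple.coe_gen ℚ β
  have hx0 : x ≠ 0 := by
    intro h
    rw [h] at hx
    exact hβ0 (by rw [← hx]; rfl)
  have hmin : minpoly ℚ x = minpoly ℚ β := by
    rw [← hx]
    exact (minpoly.algebraMap_eq (algebraMap K Ω).injective x).symm
  let φ : K →ₐ[ℚ] ℂ := IsAlgClosed.lift
  have hz : Polynomial.aeval (φ x) (minpoly ℚ β) = 0 := by
    rw [← hmin, Polynomial.aeval_algHom_apply, minpoly.aeval, map_zero]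
  have hnorm := hβ.2 (φ x) hz
  have hz0 : φ x ≠ 0 := by
    rw [Ne, map_eq_zero]
    exact hx0
  have hconj : (starRingEnd ℂ) (φ x) = φ ((q : K) / x) := by
    have h1 : (starRingEnd ℂ) (φ x) * φ x = (q : ℂ) := by
      rw [mul_comm, Complex.mul_conj, Complex.normSq_eq_norm_sq, hnorm]
      have h2 : ((q : ℝ) ^ (((1 : ℤ) : ℝ) / 2)) ^ 2 = q := by
        rw [← Real.rpow_natCast, ← Real.rpow_mul (Nat.cast_nonneg _)]
        norm_num
      rw [h2]
      norm_num
    rw [map_div₀, map_natCast, eq_div_iff hz0, h1]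
  have h3 : Polynomial.aeval ((starRingEnd ℂ) (φ x)) (minpoly ℚ β) = 0 := by
    have h4 := congrArg (starRingEnd ℂ) hz
    rw [map_zero, Polynomial.aeval_def, Polynomial.hom_eval₂] at h4
    rw [Polynomial.aeval_def]
    convert h4 using 2
    exact Subsingleton.elim _ _
  rw [hconj, ← hmin, Polynomial.aeval_algHom_apply, map_eq_zero] at h3
  have h5 : Polynomial.aeval ((q : Ω) / β) (minpoly ℚ β) = 0 := by
    have h6 := congrArg (algebraMap K Ω) h3
    rw [map_zero, ← Polynomial.aeval_algebraMap_apply, hmin, map_div₀, map_natCast] at h6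
    have h7 : algebraMap K Ω x = β := hx
    rwa [h7] at h6
  refine ⟨hβ.1, ⟨minpoly ℚ β, minpoly.ne_zero hint, h5⟩, ?_⟩
  exact minpoly.eq_of_irreducible_of_monic (minpoly.irreducible hint) h5 (minpoly.monic hint)

end Pool.Agent.T2h11.WMP
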