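import Pool.Agent.X302.MW.Three

/-!
# Slopes and Hodge numbers for the p-adic weight spectral sequence: definitions
-/

set_option autoImplicit false

namespace Pool.Agent.T2h11.WMP

universe u v

open Module Pool.Agent.Y143 Pool.Agent.X302.MW

section

variable {K : Type*} [Field K] {V : Type*} [AddCommGroup V] [Module K V]

/-- The rank of `T ^ k`. -/
noncomputable def rankPow (T : Module.End K V) (k : ℕ) : ℕ := finrank K (LinearMap.range (T ^ k))

/-- The multiplicity of the eigenvalue `α` of `T`. -/
noncomputable def dimGen (T : Module.End K V) (α : K) : ℕ := finrank K (T.maxGenEigenspace α)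

/-- The multiplicity of the eigenvalue `α` of `T` on the stable subspace `W`. -/
noncomputable def dimGenOn (T : Module.End K V) (W : Submodule K V) (α : K) : ℕ :=
  finrank K (W ⊓ T.maxGenEigenspace α : Submodule K V)

/-- `α` is an eigenvalue of `T` on the quotient `W / B`. -/
def EigenMod (T : Module.End K V) (W B : Submodule K V) (α : K) : Prop :=
  ∃ v : V, v ∈ W ∧ v ∉ B ∧ T v - α • v ∈ B

end

variable {Ω : Type u} [Field Ω] [CharZero Ω] {Γ : Type} {n q : ℕ}

/-- The function `val` is (on the nonzero numbers) a valuation normalized by `val q = 1`. -/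
structure IsSlope (q : ℕ) (val : Ω → ℝ) : Prop where
  mul : ∀ α β, α ≠ 0 → β ≠ 0 → val (α * β) = val α + val β
  add : ∀ α β, α ≠ 0 → β ≠ 0 → α + β ≠ 0 → min (val α) (val β) ≤ val (α + β)
  norm : val (q : Ω) = 1

/-- The multiplicity of the eigenvalue `α` of the Frobenius on `H^k` of the generic fibre. -/
noncomputable def mult (X : SemistableModel.{u, v} Ω Γ n q) (k : ℕ) (α : Ω) : ℕ :=
  dimGen (X.actV k X.frob) α

/-- The family `f` has the values `c` with the multiplicities `m c`. -/
def Lists {r : ℕ} {ι : Type*} (f : Fin r → ι) (m : ι → ℕ) : Prop :=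
  ∀ c, Nat.card {i // f i = c} = m c

/-- The sum of the first `m` of the numbers `s i`. -/
noncomputable def firstSum {r : ℕ} (s : Fin r → ℝ) (m : ℕ) : ℝ :=
  ∑ i ∈ Finset.univ.filter (fun i : Fin r => (i : ℕ) < m), s i

/-- The polygon with the increasing slopes `s i` lies above the one with the increasing slopes `a i`,
and they have the same end point. -/
structure PolygonAbove {r : ℕ} (s : Fin r → ℝ) (a : Fin r → ℕ) : Prop where
  mono_left : Monotone s
  mono_right : Monotone a
  le : ∀ m : ℕ, firstSum (fun i => (a i : ℝ)) m ≤ firstSum s m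
  eq : ∑ i, (a i : ℝ) = ∑ i, s i

/-- The Newton polygon (of the slopes `val α` of the eigenvalues `α` of the Frobenius on `H^k` of the
generic fibre) lies above the Hodge polygon (of the numbers `a` with the multiplicities `hdg a`, the
Hodge numbers `h^(a, k - a)`), and they have the same end point. -/
def NewtonAboveHodge (X : SemistableModel.{u, v} Ω Γ n q) (val : Ω → ℝ) (k : ℕ) (hdg : ℕ → ℕ) :
    Prop :=
  ∃ (r : ℕ) (α : Fin r → Ω) (a : Fin r → ℕ),
    Lists α (mult X k) ∧ Lists a hdg ∧ PolygonAbove (fun i => val (α i)) a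

/-- `α` is an eigenvalue of the Frobenius on the graded piece of weight `w` of `H^k` of the generic
fibre. -/
def EigGr (X : SemistableModel.{u, v} Ω Γ n q) (k : ℕ) (w : ℤ) (α : Ω) : Prop :=
  EigenMod (X.actV k X.frob) (X.W k w) (X.W k (w - 1)) α

end Pool.Agent.T2h11.WMP
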