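import Pool.Agent.T2h11.WMP.Tate

/-!
# The graded piece `gr_4 H^3`
-/

set_option autoImplicit false

namespace Pool.Agent.T2h11.WMP

universe u v

open Module Pool.Agent.Y143 Pool.Agent.X302.MW

variable {Ω : Type u} [Field Ω] [CharZero Ω] {Γ : Type} {q : ℕ}

lemma actC_gen_inv (X : SpecialFibre.{u, v} Ω Γ 3 q) (a : ℕ) {μ : Ω} (hμ : μ ≠ 0) {b : X.H a}
    {l : ℕ} (hb : ((X.act a X.frob - μ • (1 : Module.End Ω (X.H a))) ^ l) b = 0) :
    ((X.act a (X.tr X.frob) - μ⁻¹ • (1 : Module.End Ω (X.H a))) ^ l) b = 0 := by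
  set F := X.act a X.frob with hF
  set F' := X.act a (X.tr X.frob) with hF'
  have hinv : ∀ x, F' (F x) = x := X.frob_inv a
  have hcomm : ∀ x, F' (F x) = F (F' x) := fun x => X.act_comm a (X.tr X.frob) X.frob x
  have key : F' - μ⁻¹ • (1 : Module.End Ω (X.H a)) =
      (-(μ⁻¹) • F') * (F - μ • (1 : Module.End Ω (X.H a))) := by
    refine LinearMap.ext fun x => ?_
    simp only [LinearMap.sub_apply, LinearMap.smul_apply, Module.End.one_apply,
      Module.End.mul_apply, map_sub, map_smul, hinv, smul_smul]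
    rw [mul_neg, mul_inv_cancel₀ hμ, neg_smul, neg_smul, one_smul]
    abel
  have hc : Commute (-(μ⁻¹) • F') (F - μ • (1 : Module.End Ω (X.H a))) := by
    apply Commute.smul_left
    apply Commute.sub_right
    · exact LinearMap.ext fun x => hcomm x
    · exact Commute.smul_right (Commute.one_right _) _
  rw [key, hc.mul_pow, Module.End.mul_apply, hb, map_zero]

variable [IsAlgClosed Ω]

/-- The Gysin map is injective on the part of eigenvalue `β` if the restriction is surjective on the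
dual part. -/
lemma gys_inj (X : SpecialFibre.{u, v} Ω Γ 3 q) {β : Ω}
    (hs : ∀ z ∈ frobPart X 1 2 ((q : Ω) ^ 2 / β), ∃ y ∈ frobPart X 0 2 ((q : Ω) ^ 2 / β),
      X.res 0 y = z) {x : X.H 1} (hx : x ∈ frobPart X 1 2 β) (h : X.gys 0 x = 0) : x = 0 := by
  classical
  have hfin : FiniteDimensional Ω (X.H 1) := (X.duality 1).1.finite
  have hq : (q : Ω) ≠ 0 := Nat.cast_ne_zero.2 X.q_ne
  apply eq_zero_of_orth X 1 hx.1
  intro b hb
  rw [show 2 * (((3 : ℕ) : ℤ) - ((1 : ℕ) : ℤ)) - 2 = 2 by norm_num] at hb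
  have h1 : X.gr 1 2 = ⨆ μ, X.gr 1 2 ⊓ (X.act 1 X.frob).genEigenspace μ ⊤ :=
    Submodule.eq_iSup_inf_genEigenspace ⊤ (fun y hy => X.act_gr 1 2 X.frob y hy)
      (Module.End.iSup_maxGenEigenspace_eq_top _)
  rw [h1] at hb
  refine Submodule.iSup_induction _ (motive := fun b => X.pair 1 x b = 0) hb ?_ (map_zero _)
    (fun y z hy hz => by rw [map_add, hy, hz, add_zero])
  rintro μ b ⟨hb2, hbμ⟩
  obtain ⟨l, hl⟩ := Module.End.mem_maxGenEigenspace _ _ _ |>.1 hbμ
  obtain ⟨k, hk⟩ := Module.End.mem_maxGenEigenspace _ _ _ |>.1 hx.2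
  by_cases hμ : μ = 0
  · -- the Frobenius is injective
    subst hμ
    have h2 : ∀ j : ℕ, ((X.act 1 X.frob - (0 : Ω) • (1 : Module.End Ω (X.H 1))) ^ j) b = 0 →
        b = 0 := by
      intro j
      induction j with
      | zero => intro h; simpa using h
      | succ j ih =>
        intro h
        apply ih
        rw [pow_succ', Module.End.mul_apply, zero_smul, sub_zero] at h
        have h3 := congrArg (X.act 1 (X.tr X.frob)) h
        rw [X.frob_inv, map_zero] at h3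
        rw [zero_smul, sub_zero]
        exact h3
    rw [h2 l hl, map_zero]
  by_cases hμβ : μ = (q : Ω) ^ 2 / β
  · subst hμβ
    obtain ⟨y, -, hy⟩ := hs b ⟨hb2, hbμ⟩
    rw [← hy, ← X.pair_gys, h, map_zero, LinearMap.zero_apply]
  · have hne : β ≠ (q : Ω) ^ 2 * μ⁻¹ := by
      intro hc
      apply hμβ
      rw [hc]
      field_simp
    apply orth_genEigen (ψ := X.pair 1) (A := ⊤) (A' := ⊤) (S := X.act 1 X.frob)
      (S' := X.act 1 (X.tr X.frob)) (κ := (q : Ω) ^ 2) (μ := β) (ν := μ⁻¹)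
      (fun _ _ => Submodule.mem_top) (fun _ _ => Submodule.mem_top) ?_ hne k l x
      Submodule.mem_top b Submodule.mem_top hk (actC_gen_inv X 1 hμ hl)
    intro x _ y _
    rw [X.act_pair]
    congr 1
    rw [show ((3 : ℕ) : ℤ) - ((1 : ℕ) : ℤ) = ((2 : ℕ) : ℤ) by norm_num, zpow_natCast,
      Units.val_pow_eq_pow_val, X.cyc_frob]

/-- The eigenvalues on `gr_4 H^3`. -/
lemma not_eigGr4 (X : SemistableModel.{u, v} Ω Γ 3 q)
    (hI : HasIntegralFrobenius X.toSpecialFibre) {α : Ω} (hα : ¬ IsTateNumber q (α / q))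
    (hs : ∀ z ∈ frobPart X.toSpecialFibre 1 2 ((q : Ω) ^ 2 / ((q : Ω)⁻¹ * α)),
      ∃ y ∈ frobPart X.toSpecialFibre 0 2 ((q : Ω) ^ 2 / ((q : Ω)⁻¹ * α)), X.res 0 y = z) :
    ¬ EigGr X 3 4 α := by
  classical
  have hq : (q : Ω) ≠ 0 := Nat.cast_ne_zero.2 X.q_ne
  rintro ⟨v, hv, hv', hvα⟩
  obtain ⟨x, hx⟩ := X.sp_left 3 4 v hv
  have h1 := (X.sp_mem 3 4 v x hx).2
  have hxB : x ∉ X.coboundaries ((3 : ℕ) - 4) 4 := fun hc => hv' ((X.sp_ker 3 4 v x hx).2 hc)
  have h2 : (X.actV 3 X.frob v - α • v, X.actC ((3 : ℕ) - 4) X.frob x - α • x) ∈ X.sp 3 4 :=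
    Submodule.sub_mem _ (X.sp_act 3 4 v x X.frob hx) (Submodule.smul_mem _ α hx)
  have h3 := (X.sp_ker 3 4 _ _ h2).1 hvα
  apply hxB
  have e : ((3 : ℕ) : ℤ) - 4 = -1 := by norm_num
  refine mem_of_eigen_mod_in (X.actC ((3 : ℕ) - 4) X.frob) α (Z := X.cocycles ((3 : ℕ) - 4) 4)
    (fun y hy => zc_stable X _ 4 hy) (fun y hy => X.actC_bd _ 4 X.frob hy) ?_ h1 h3
  rw [e]
  intro x hx hxg
  have hxE := hx.1
  have hx1 : x 1 ∈ frobPart X.toSpecialFibre 1 2 ((q : Ω)⁻¹ * α) := by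
    constructor
    · have := (hxE 1).1
      rwa [show (4 : ℤ) + -1 - ((1 : ℕ) : ℤ) = 2 by norm_num] at this
    · have := comp_gen X.toSpecialFibre (-1) hxg 1
      rwa [show (((1 : ℕ) : ℤ) - -1) / 2 = 1 by norm_num, zpow_one] at this
  have hgys : X.gys 0 (x 1) = 0 := by
    have h4 : X.diff (-1) x = 0 := hx.2
    have h5 := congrFun h4 0
    rw [X.diff_apply, X.cut_of (show InColumn (-1 + 1) 0 from ⟨by norm_num, ⟨0, by norm_num⟩⟩),
      Pi.add_apply, X.gysC_apply] at h5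
    have h6 : X.resC x 0 = 0 := rfl
    rw [h6, zero_add] at h5
    exact h5
  have hx10 := gys_inj X.toSpecialFibre hs hx1 hgys
  have hx0 : x = 0 := by
    funext b
    by_cases hb : b = 1
    · subst hb
      exact hx10
    · by_cases hc : InColumn (-1) b
      · have hc2 := hc.2
        have hc1 := hc.1
        rw [show |(-1 : ℤ)| = 1 by norm_num] at hc1
        by_cases hb3 : b = 3
        · subst hb3
          by_contra hne
          have h3 := comp_gen X.toSpecialFibre (-1) hxg 3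
          rw [show (((3 : ℕ) : ℤ) - -1) / 2 = 2 by norm_num] at h3
          have h4 := (hxE 3).1
          rw [show (4 : ℤ) + -1 - ((3 : ℕ) : ℤ) = 0 by norm_num] at h4
          obtain ⟨-, k, hk, hk'⟩ := h0_root X.toSpecialFibre hI 3 ⟨h4, h3⟩ hne
          apply hα
          apply isTate_of_root hq hk (k := k)
          rw [← hk']
          congr 1
          rw [show ((q : Ω) ^ (2 : ℤ)) = (q : Ω) * q by rw [zpow_ofNat, pow_two]]
          field_simp
        · exact X.eq_zero_of_lt (by omega) _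
      · exact (hxE b).2 hc
  rw [hx0]
  exact Submodule.zero_mem _

/-- The Frobenius eigenvalues on `gr_4 H^3` are products of `q ^ 2` and roots of unity. -/
theorem tate_gr4 (hq : IsPrimePow q) (X : SemistableModel.{u, v} Ω Γ 3 q)
    (A : DivisorClasses X.toSpecialFibre) {val : Ω → ℝ} {hdg : ℕ → ℕ}
    (hX : PadicFacts X val hdg) (hN : MaximalRank X hdg) (h2 : TateTypeH2 X) (α : Ω)
    (hα : EigGr X 3 4 α) : IsTateNumber q (α / q) := by
  by_contra hcon
  have hq0 : (q : Ω) ≠ 0 := Nat.cast_ne_zero.2 X.q_ne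
  have hdual : ¬ IsTateNumber q ((q : Ω) ^ 2 / ((q : Ω)⁻¹ * α)) := by
    rintro ⟨k, hk, hk'⟩
    apply hcon
    refine ⟨k, hk, ?_⟩
    have hα0 : α ≠ 0 := by
      rintro rfl
      rw [mul_zero, div_zero, zero_pow hk.ne'] at hk'
      exact pow_ne_zero k hq0 hk'.symm
    rw [div_pow, div_eq_iff (pow_ne_zero _ (mul_ne_zero (inv_ne_zero hq0) hα0)), mul_pow] at hk'
    rw [div_pow, div_eq_iff (pow_ne_zero _ hq0)]
    have h3 : (q : Ω) ^ k * ((q : Ω)⁻¹ ^ k * α ^ k) = α ^ k := by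
      rw [← mul_assoc, ← mul_pow, mul_inv_cancel₀ hq0, one_pow, one_mul]
    rw [h3] at hk'
    rw [← hk', ← pow_mul, ← pow_add]
    congr 1
    ring
  exact not_eigGr4 X hX.integral hcon (fun z hz => surj_nonTate X rfl hq
    hX.integral hX.rational_one hX.rational_two hX.slope.ring (hX.slope.inv_notMem hq0) h2
    (fun β hβ => hX.slope.div_mem hq0 (slope_ge_two X hX.integral hX.slope
      hX.polygon hX.rational_low (le_trans hN (rank_sq_le X A)) hβ)) _ hdual z hz) hα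

/-- The Frobenius eigenvalues on `gr_2 H^3` are products of `q` and roots of unity, those on `gr_4 H^3`
are products of `q ^ 2` and roots of unity. -/
def TateTypeH3 (X : SemistableModel.{u, v} Ω Γ 3 q) : Prop :=
  (∀ α, EigGr X 3 2 α → IsTateNumber q α) ∧ ∀ α, EigGr X 3 4 α → IsTateNumber q (α / q)

theorem tate_both (hq : IsPrimePow q) (X : SemistableModel.{u, v} Ω Γ 3 q)
    (A : DivisorClasses X.toSpecialFibre) {val : Ω → ℝ} {hdg : ℕ → ℕ}
    (hX : PadicFacts X val hdg) (hN : MaximalRank X hdg) (h2 : TateTypeH2 X) : TateTypeH3 X :=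
  ⟨tate_gr hq X A hX hN h2, tate_gr4 hq X A hX hN h2⟩

end Pool.Agent.T2h11.WMP
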