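import Mathlib

/-!
# Linear algebra
-/

set_option autoImplicit false

namespace Pool.Agent.T2h11.WMP

open Module

variable {K : Type*} [Field K] {V : Type*} [AddCommGroup V] [Module K V]

/-- If the stable subspace `B` contains the generalized eigenspace, there are no eigenvectors modulo
`B`. -/
lemma mem_of_eigen_mod [FiniteDimensional K V] (F : Module.End K V) (α : K) {B : Submodule K V}
    (hB : ∀ x ∈ B, F x ∈ B) (hE : F.maxGenEigenspace α ≤ B) {x : V} (hx : F x - α • x ∈ B) :
    x ∈ B := by
  set T : Module.End K V := F - α • (1 : Module.End K V) with hT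
  have hTx : T x ∈ B := by simpa [hT] using hx
  have hTB : ∀ y ∈ B, T y ∈ B := by
    intro y hy
    have : T y = F y - α • y := by simp [hT]
    rw [this]
    exact B.sub_mem (hB y hy) (B.smul_mem _ hy)
  let TB : Module.End K B := T.restrict hTB
  have hpow : ∀ (m : ℕ) (y : B), ((TB ^ m) y : V) = (T ^ m) y := by
    intro m
    induction m with
    | zero => intro y; rfl
    | succ m ih =>
      intro y
      rw [pow_succ, pow_succ, Module.End.mul_apply, Module.End.mul_apply, ih]
      rfl
  set g := finrank K B with hg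
  have hker : LinearMap.ker (TB ^ (g + 1)) = LinearMap.ker (TB ^ g) :=
    Module.End.ker_pow_eq_ker_pow_finrank_of_le (Nat.le_succ _)
  have hrange : LinearMap.range (TB ^ (g + 1)) = LinearMap.range (TB ^ g) := by
    apply Submodule.eq_of_le_of_finrank_le
    · rintro _ ⟨y, rfl⟩
      refine ⟨TB y, ?_⟩
      rw [pow_succ, Module.End.mul_apply]
    · have h1 := LinearMap.finrank_range_add_finrank_ker (TB ^ (g + 1))
      have h2 := LinearMap.finrank_range_add_finrank_ker (TB ^ g)
      rw [hker] at h1
      omega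
  have h3 : (TB ^ g) ⟨T x, hTx⟩ ∈ LinearMap.range (TB ^ (g + 1)) := by
    rw [hrange]
    exact ⟨_, rfl⟩
  obtain ⟨b, hb⟩ := h3
  have h4 : (T ^ (g + 1)) (x - b) = 0 := by
    have h5 := congrArg (Subtype.val) hb
    rw [hpow, hpow] at h5
    rw [map_sub, h5, pow_succ, Module.End.mul_apply, sub_self]
  have h6 : x - b ∈ F.maxGenEigenspace α := by
    rw [Module.End.mem_maxGenEigenspace]
    exact ⟨g + 1, h4⟩
  have h7 := B.add_mem (hE h6) b.2
  rwa [sub_add_cancel] at h7

/-- The dimension of a sum of subspaces. -/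
lemma finrank_sup_le [FiniteDimensional K V] {ι : Type*} (s : Finset ι) (E : ι → Submodule K V) :
    finrank K (s.sup E : Submodule K V) ≤ ∑ i ∈ s, finrank K (E i) := by
  classical
  induction s using Finset.induction_on with
  | empty => simp
  | insert i s hi ih =>
    rw [Finset.sup_insert, Finset.sum_insert hi]
    exact (Submodule.finrank_add_le_finrank_add_finrank _ _).trans (Nat.add_le_add_left ih _)

/-- A stable subspace is contained in the sum of the generalized eigenspaces for its eigenvalues. -/
lemma le_of_eigen [FiniteDimensional K V] [IsAlgClosed K] (F : Module.End K V)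
    {B U : Submodule K V} (hB : ∀ x ∈ B, F x ∈ B)
    (h : ∀ (μ : K) (y : V), y ∈ B → y ≠ 0 → F y = μ • y → F.maxGenEigenspace μ ≤ U) : B ≤ U := by
  have h1 : B = ⨆ μ, B ⊓ F.genEigenspace μ ⊤ :=
    Submodule.eq_iSup_inf_genEigenspace ⊤ hB (Module.End.iSup_maxGenEigenspace_eq_top F)
  rw [h1]
  apply iSup_le
  intro μ
  by_cases h2 : ∃ x ∈ B, x ∈ F.maxGenEigenspace μ ∧ x ≠ 0
  · obtain ⟨x, hx, hxE, hx0⟩ := h2
    obtain ⟨k, hk⟩ := Module.End.mem_maxGenEigenspace F μ x |>.1 hxE
    classical
    have hex : ∃ k, ((F - μ • (1 : Module.End K V)) ^ k) x = 0 := ⟨k, hk⟩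
    have hpos : Nat.find hex ≠ 0 := by
      intro h0
      have := Nat.find_spec hex
      rw [h0] at this
      exact hx0 (by simpa using this)
    obtain ⟨j, hj⟩ := Nat.exists_eq_succ_of_ne_zero hpos
    have hBT : ∀ k, ((F - μ • (1 : Module.End K V)) ^ k) x ∈ B := by
      intro k
      induction k with
      | zero => simpa using hx
      | succ k ih =>
        rw [pow_succ', Module.End.mul_apply]
        exact B.sub_mem (hB _ ih) (B.smul_mem _ ih)
    have h3 := Nat.find_spec hex
    rw [hj, Nat.succ_eq_add_one, pow_succ', Module.End.mul_apply] at h3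
    refine le_trans inf_le_right (h μ _ (hBT j) (Nat.find_min hex (by omega)) ?_)
    simpa [sub_eq_zero] using h3
  · push Not at h2
    intro x hx
    rw [h2 x hx.1 hx.2]
    exact U.zero_mem

/-- A submodule of a product with finite-dimensional image and kernel. -/
lemma finite_of_graph {C : Type*} [AddCommGroup C] [Module K C] [FiniteDimensional K C]
    (S : Submodule K (V × C)) (B W : Submodule K V) [FiniteDimensional K B]
    (h1 : ∀ v, (v, (0 : C)) ∈ S → v ∈ B) (h2 : ∀ v ∈ W, ∃ x, (v, x) ∈ S) :
    FiniteDimensional K W := by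
  have hS : S.FG := by
    apply Submodule.fg_of_fg_map_of_fg_inf_ker (LinearMap.snd K V C)
    · exact IsNoetherian.noetherian _
    · have hle : S ⊓ LinearMap.ker (LinearMap.snd K V C) ≤ B.map (LinearMap.inl K V C) := by
        rintro ⟨v, x⟩ ⟨hv, hx⟩
        have hx0 : x = 0 := hx
        subst hx0
        exact ⟨v, h1 v hv, rfl⟩
      have hfd : FiniteDimensional K (B.map (LinearMap.inl K V C)) := inferInstance
      exact (Submodule.fg_iff_finiteDimensional _).2 (Submodule.finiteDimensional_of_le hle)
  have h3 : (S.map (LinearMap.fst K V C)).FG := hS.map _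
  have h4 : FiniteDimensional K (S.map (LinearMap.fst K V C)) :=
    (Submodule.fg_iff_finiteDimensional _).1 h3
  refine Submodule.finiteDimensional_of_le (S₂ := S.map (LinearMap.fst K V C)) ?_
  intro v hv
  obtain ⟨x, hx⟩ := h2 v hv
  exact ⟨(v, x), hx, rfl⟩

end Pool.Agent.T2h11.WMP
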