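import Pool.Agent.T2h11.WMP.Poly
import Pool.Agent.T2h11.WMP.Lin

/-!
# The slopes on the graded pieces of the weight filtration
-/

set_option autoImplicit false

namespace Pool.Agent.T2h11.WMP

universe u v

open Module Pool.Agent.Y143 Pool.Agent.X302.MW

variable {Ω : Type u} [Field Ω] [CharZero Ω] {Γ : Type} {n q : ℕ}

section

variable (X : SemistableModel.{u, v} Ω Γ n q)

/-- There are no weights below zero. -/
lemma W_pred {k : ℕ} {w : ℤ} (hw : w < 0) : X.W k w ≤ X.W k (w - 1) := by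
  intro v hv
  obtain ⟨x, hx⟩ := X.sp_left k w v hv
  have h1 := (X.sp_mem k w v x hx).2
  have hx0 : x = 0 := by
    funext a
    by_cases hc : InColumn ((k : ℤ) - w) a
    · have h2 := (h1.1 a).1
      have h3 := hc.1
      rw [abs_of_nonneg (by omega)] at h3
      rw [X.gr_eq_bot a _ (Or.inl (by omega)), Submodule.mem_bot] at h2
      exact h2
    · exact (h1.1 a).2 hc
  rw [X.sp_ker k w v x hx, hx0]
  exact Submodule.zero_mem _

lemma W_neg {k : ℕ} {w : ℤ} (hw : w < 0) : X.W k w = ⊥ := by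
  obtain ⟨w0, hw0⟩ := X.W_bot k
  have h1 : ∀ m : ℕ, X.W k w ≤ X.W k (w - m) := by
    intro m
    induction m with
    | zero => simp
    | succ m ih =>
      refine ih.trans ?_
      have := W_pred X (k := k) (w := w - m) (by omega)
      rwa [show w - (m : ℤ) - 1 = w - ((m + 1 : ℕ) : ℤ) by push_cast; ring] at this
  have h2 : X.W k w ≤ X.W k w0 :=
    (h1 (w - w0).toNat).trans (X.W_mono k (by omega))
  rw [hw0] at h2
  exact le_bot_iff.1 h2

/-- The cohomology of the generic fibre is finite-dimensional. -/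
lemma W_finite (k : ℕ) (m : ℕ) : FiniteDimensional Ω (X.W k ((m : ℤ) - 1)) := by
  induction m with
  | zero =>
    rw [W_neg X (by simp)]
    infer_instance
  | succ m ih =>
    have h1 : ∀ v, (v, (0 : X.C)) ∈ X.sp k m → v ∈ X.W k ((m : ℤ) - 1) := by
      intro v hv
      rw [X.sp_ker k m v 0 hv]
      exact Submodule.zero_mem _
    have h2 := finite_of_graph (X.sp k m) (X.W k ((m : ℤ) - 1)) (X.W k m) h1
      (fun v hv => X.sp_left k m v hv)
    rwa [show ((m + 1 : ℕ) : ℤ) - 1 = m by push_cast; ring]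

lemma V_finite (k : ℕ) : FiniteDimensional Ω (X.V k) := by
  obtain ⟨w, hw⟩ := X.W_top k
  have h1 := W_finite X k ((w + 1).toNat)
  have h2 : X.W k (((w + 1).toNat : ℤ) - 1) = ⊤ := by
    rw [eq_top_iff, ← hw]
    exact X.W_mono k (by omega)
  rw [h2] at h1
  exact Submodule.topEquiv.finiteDimensional

lemma W_stable {k : ℕ} {w : ℤ} {v : X.V k} (hv : v ∈ X.W k w) : X.actV k X.frob v ∈ X.W k w := by
  obtain ⟨x, hx⟩ := X.sp_left k w v hv
  exact (X.sp_mem k w _ _ (X.sp_act k w v x X.frob hx)).1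

/-- The eigenvalues of the Frobenius on the part of weight zero are roots of unity. -/
lemma root_of_W0 (hI : HasIntegralFrobenius X.toSpecialFibre) {k : ℕ} {v : X.V k}
    (hv : v ∈ X.W k 0) (hv0 : v ≠ 0) {μ : Ω} (hμ : X.actV k X.frob v = μ • v) :
    ∃ m : ℕ, 0 < m ∧ μ ^ m = 1 := by
  obtain ⟨x, hx⟩ := X.sp_left k 0 v hv
  have h1 := (X.sp_mem k 0 v x hx).2
  have hxB : x ∉ X.coboundaries (k - 0) 0 := by
    intro hc
    have := (X.sp_ker k 0 v x hx).2 hc
    rw [W_neg X (by norm_num), Submodule.mem_bot] at this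
    exact hv0 this
  have h2 : (X.actV k X.frob v - μ • v, X.actC (k - 0) X.frob x - μ • x) ∈ X.sp k 0 :=
    Submodule.sub_mem _ (X.sp_act k 0 v x X.frob hx) (Submodule.smul_mem _ μ hx)
  have h3 : X.actC (k - 0) X.frob x - μ • x ∈ X.coboundaries (k - 0) 0 := by
    rw [← X.sp_ker k 0 _ _ h2, hμ, sub_self]
    exact Submodule.zero_mem _
  obtain ⟨y, hy, hy0, hyμ⟩ := exists_eigen (S := X.actC (k - 0) X.frob)
    (X.bd_le_zc (k - 0) 0) (fun z hz => X.actC_bd (k - 0) 0 X.frob hz) h1 hxB h3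
  obtain ⟨b, hb⟩ : ∃ b, y b ≠ 0 := by
    by_contra hcon
    push Not at hcon
    exact hy0 (funext hcon)
  have hc : InColumn ((k : ℤ) - 0) b := by
    by_contra hc
    exact hb ((hy.1 b).2 hc)
  have h4 := (hy.1 b).1
  have h5 := hc.1
  rw [sub_zero, Nat.abs_cast] at h5
  have hbk : (b : ℤ) = k := by
    by_contra hne
    rw [X.gr_eq_bot b _ (Or.inl (by omega)), Submodule.mem_bot] at h4
    exact hb h4
  have h6 := congrFun hyμ b
  rw [X.actC_apply, Pi.smul_apply, Units.val_zpow_eq_zpow_val, hbk, sub_zero, sub_self,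
    Int.zero_ediv, zpow_zero, one_smul] at h6
  have h7 : y b ∈ frobPart X.toSpecialFibre b 0 μ := by
    constructor
    · rwa [show (0 : ℤ) + (k - 0) - b = 0 by omega] at h4
    · rw [SetLike.mem_coe, Module.End.mem_maxGenEigenspace]
      refine ⟨1, ?_⟩
      rw [pow_one, LinearMap.sub_apply, LinearMap.smul_apply, Module.End.one_apply, h6, sub_self]
  exact (h0_root X.toSpecialFibre hI b h7 hb).2

variable [IsAlgClosed Ω]

/-- If the part of weight zero of `H^k` has dimension at least `h^(0, k)`, then the slopes on the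
graded pieces of positive weight are at least one. -/
lemma slope_ge (hI : HasIntegralFrobenius X.toSpecialFibre) {val : Ω → ℝ} (hval : IsSlope q val)
    {k : ℕ} {hdg : ℕ → ℕ} (hN : NewtonAboveHodge X val k hdg)
    (hW : hdg 0 ≤ finrank Ω (X.W k 0)) {w : ℤ} (hw : 1 ≤ w) {α : Ω} (hα : EigGr X k w α) :
    1 ≤ val α := by
  classical
  have := V_finite X k
  obtain ⟨r, β, a, hβ, ha, hmono, -, hle, -⟩ := hN
  unfold Lists at hβ ha
  unfold firstSum at hle
  obtain ⟨v, hv, hv', hvα⟩ := hα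
  set F := X.actV k X.frob with hF
  set Z := Finset.univ.filter (fun i : Fin r => val (β i) = 0) with hZ
  set S : Finset Ω := Z.image β with hS
  set U : Submodule Ω (X.V k) := S.sup (fun μ => F.maxGenEigenspace μ) with hU
  -- every eigenvalue occurs
  have hocc : ∀ μ : Ω, ∀ y : X.V k, y ≠ 0 → y ∈ F.maxGenEigenspace μ → ∃ i, β i = μ := by
    intro μ y hy0 hy
    by_contra hcon
    have h1 := hβ μ
    have h2 : IsEmpty {i // β i = μ} := ⟨fun i => hcon ⟨i.1, i.2⟩⟩
    rw [Nat.card_of_isEmpty] at h1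
    have h3 : F.maxGenEigenspace μ = ⊥ := Submodule.finrank_eq_zero.1 h1.symm
    rw [h3, Submodule.mem_bot] at hy
    exact hy0 hy
  have hWU : X.W k 0 ≤ U := by
    apply le_of_eigen F (fun x hx => W_stable X hx)
    intro μ y hy hy0 hyμ
    obtain ⟨m, hm, hm'⟩ := root_of_W0 X hI hy hy0 hyμ
    have h1 : val μ = 0 := hval.root hm hm'
    have h2 : y ∈ F.maxGenEigenspace μ := by
      rw [Module.End.mem_maxGenEigenspace]
      refine ⟨1, ?_⟩
      rw [pow_one, LinearMap.sub_apply, LinearMap.smul_apply, Module.End.one_apply, hyμ, sub_self]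
    obtain ⟨i, hi⟩ := hocc μ y hy0 h2
    apply Finset.le_sup (f := fun μ => F.maxGenEigenspace μ)
    rw [hS, Finset.mem_image]
    exact ⟨i, Finset.mem_filter.2 ⟨Finset.mem_univ _, by rw [hi, h1]⟩, hi⟩
  have hUZ : finrank Ω U ≤ Z.card := by
    refine (finrank_sup_le S _).trans ?_
    have h1 : ∀ μ ∈ S, finrank Ω (F.maxGenEigenspace μ) = (Z.filter (fun i => β i = μ)).card := by
      intro μ hμ
      rw [hS, Finset.mem_image] at hμ
      obtain ⟨i, hi, rfl⟩ := hμ
      have h2 := hβ (β i)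
      rw [Nat.card_eq_fintype_card, Fintype.card_subtype] at h2
      show mult X k (β i) = _
      rw [← h2]
      congr 1
      ext j
      simp only [Finset.mem_filter, Finset.mem_univ, true_and, hZ]
      constructor
      · intro h
        rw [h]
        exact ⟨(Finset.mem_filter.1 hi).2, rfl⟩
      · exact fun h => h.2
    rw [Finset.sum_congr rfl h1]
    rw [← Finset.card_eq_sum_card_image β Z]
  obtain ⟨h3, h4⟩ := slopes (s := fun i => val (β i)) (a := a) hmono (ha 0) hle
    ((hW.trans (Submodule.finrank_mono hWU)).trans hUZ)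
  have hUW : X.W k 0 = U :=
    Submodule.eq_of_le_of_finrank_le hWU (hUZ.trans (h3.trans hW))
  by_contra hcon
  push Not at hcon
  apply hv'
  apply mem_of_eigen_mod F α (fun x hx => W_stable X hx) _ hvα
  refine le_trans ?_ (X.W_mono k (show (0 : ℤ) ≤ w - 1 by omega))
  rw [hUW]
  intro y hy
  by_cases hy0 : y = 0
  · rw [hy0]; exact U.zero_mem
  obtain ⟨i, hi⟩ := hocc α y hy0 hy
  have h5 : val (β i) = 0 := (h4 i).resolve_right (by rw [hi]; push Not; exact hcon)
  have h6 : α ∈ S := by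
    rw [hS, Finset.mem_image]
    exact ⟨i, Finset.mem_filter.2 ⟨Finset.mem_univ _, h5⟩, hi⟩
  exact (Finset.le_sup (f := fun μ => F.maxGenEigenspace μ) h6) hy

end

end Pool.Agent.T2h11.WMP
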