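import Pool.Agent.T2h11.WMP.Gen

/-!
# Threefolds: the restriction on the non-Tate part of `H^2`
-/

set_option autoImplicit false

namespace Pool.Agent.T2h11.WMP

universe u v

open Module Pool.Agent.Y143 Pool.Agent.X302.MW

variable {Ω : Type u} [Field Ω] [CharZero Ω] {Γ : Type} {n q : ℕ}

section

variable (X : SemistableModel.{u, v} Ω Γ n q)

/-- There are no weights above `n + k`. -/
lemma W_succ {k : ℕ} {w : ℤ} (hw : (n : ℤ) + k < w) : X.W k w ≤ X.W k (w - 1) := by
  intro v hv
  obtain ⟨x, hx⟩ := X.sp_left k w v hv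
  have h1 := (X.sp_mem k w v x hx).2
  have hx0 : x = 0 := by
    funext a
    by_cases hc : InColumn ((k : ℤ) - w) a
    · have h3 := hc.1
      rw [abs_of_nonpos (by omega)] at h3
      exact X.eq_zero_of_lt (by omega) _
    · exact (h1.1 a).2 hc
  rw [X.sp_ker k w v x hx, hx0]
  exact Submodule.zero_mem _

lemma W_eq_top {k : ℕ} : X.W k ((n : ℤ) + k) = ⊤ := by
  obtain ⟨w0, hw0⟩ := X.W_top k
  have h1 : ∀ m : ℕ, X.W k ((n : ℤ) + k + m) ≤ X.W k ((n : ℤ) + k) := by
    intro m
    induction m with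
    | zero => simp
    | succ m ih =>
      refine le_trans ?_ ih
      have := W_succ X (k := k) (w := (n : ℤ) + k + ((m + 1 : ℕ) : ℤ)) (by push_cast; omega)
      rwa [show (n : ℤ) + k + ((m + 1 : ℕ) : ℤ) - 1 = (n : ℤ) + k + m by push_cast; ring] at this
  rw [eq_top_iff, ← hw0]
  exact le_trans (X.W_mono k (show w0 ≤ (n : ℤ) + k + ((w0 - (n + k)).toNat : ℤ) by omega)) (h1 _)

lemma N_W {k : ℕ} {w : ℤ} {v : X.V k} (hv : v ∈ X.W k w) : X.N k v ∈ X.W k (w - 2) := by
  obtain ⟨x, hx⟩ := X.sp_left k w v hv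
  exact (X.sp_mem k _ _ _ (X.sp_N k w v x hx)).1

/-- The rank of `N ^ k` on `H^k` is at most the dimension of the part of weight `0` (`k = n`). -/
lemma rank_le : finrank Ω (LinearMap.range (X.N n ^ n)) ≤ finrank Ω (X.W n 0) := by
  have := V_finite X n
  apply Submodule.finrank_mono
  rintro _ ⟨v, rfl⟩
  have h1 : ∀ m : ℕ, (X.N n ^ m) v ∈ X.W n ((n : ℤ) + n - 2 * m) := by
    intro m
    induction m with
    | zero =>
      rw [pow_zero, Module.End.one_apply, Nat.cast_zero, mul_zero, sub_zero, W_eq_top]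
      exact Submodule.mem_top
    | succ m ih =>
      rw [pow_succ', Module.End.mul_apply]
      exact X.W_cast (by push_cast; ring) (N_W X ih)
  exact X.W_cast (by ring) (h1 n)

/-- An eigenvalue on the `E_2` term is an eigenvalue on the graded piece of the cohomology of the
generic fibre. -/
lemma eigGr (k : ℕ) (w : ℤ) {α : Ω} {x : X.C} (hx : x ∈ X.cocycles (k - w) w)
    (hxB : x ∉ X.coboundaries (k - w) w)
    (h : X.actC (k - w) X.frob x - α • x ∈ X.coboundaries (k - w) w) : EigGr X k w α := by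
  obtain ⟨v, hv⟩ := X.sp_right k w x hx
  refine ⟨v, (X.sp_mem k w v x hv).1, fun hc => hxB ((X.sp_ker k w v x hv).1 hc), ?_⟩
  have h1 : (X.actV k X.frob v - α • v, X.actC (k - w) X.frob x - α • x) ∈ X.sp k w :=
    Submodule.sub_mem _ (X.sp_act k w v x X.frob hv) (Submodule.smul_mem _ α hv)
  exact (X.sp_ker k w _ _ h1).2 h

variable [IsAlgClosed Ω]

/-- If `gr_2 H^2` of the generic fibre has only Tate eigenvalues, then the restriction is injective
on the non-Tate part of `H^2` of the components. -/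
lemma res_inj' (hI : HasIntegralFrobenius X.toSpecialFibre)
    (h2 : ∀ α, EigGr X 2 2 α → IsTateNumber q α) {α : Ω} (hα : ¬ IsTateNumber q α)
    {y : X.H 0} (hy : y ∈ frobPart X.toSpecialFibre 0 2 α) (h : X.res 0 y = 0) : y = 0 := by
  classical
  by_contra hy0
  have hq : (q : Ω) ≠ 0 := Nat.cast_ne_zero.2 X.q_ne
  have hcol : InColumn 0 0 := ⟨by simp, ⟨0, by simp⟩⟩
  have hxE : (Pi.single 0 y : X.C) ∈ X.E₁ 0 2 := by
    apply X.single_mem hcol
    simpa using hy.1
  have hxc : (Pi.single 0 y : X.C) ∈ X.cocycles 0 2 := by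
    refine ⟨hxE, ?_⟩
    rw [SetLike.mem_coe, LinearMap.mem_ker]
    funext b
    rw [X.diff_apply]
    by_cases hc : InColumn (0 + 1) b
    · rw [X.cut_of hc, Pi.add_apply, X.gysC_apply, Pi.single_eq_of_ne (by omega), map_zero,
        add_zero]
      cases b with
      | zero => rfl
      | succ b =>
        rw [X.resC_succ]
        by_cases hb : b = 0
        · subst hb
          rw [Pi.single_eq_same, h]
          rfl
        · rw [Pi.single_eq_of_ne hb, map_zero]
          rfl
    · rw [X.cut_of_not hc]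
      rfl
  have hgen := single_gen X.toSpecialFibre 0 0 rfl hy.2
  have hxB : (Pi.single 0 y : X.C) ∉ X.coboundaries 0 2 := by
    intro hb
    obtain ⟨v, hvE, hvg, hv⟩ := cob_gen X.toSpecialFibre 0 2 hgen hb
    have hv0 : v = 0 := by
      funext a
      by_cases hc : InColumn (0 - 1) a
      · have h1 := (hvE a).1
        have hc1 := hc.1
        have hc2 := hc.2
        rw [show |(0 : ℤ) - 1| = 1 by norm_num] at hc1
        rcases Nat.lt_or_ge a 2 with ha | ha
        · have ha1 : a = 1 := by omega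
          subst ha1
          by_contra hne
          have h3 := comp_gen X.toSpecialFibre (0 - 1) hvg 1
          rw [show (((1 : ℕ) : ℤ) - (0 - 1)) / 2 = 1 by norm_num, zpow_one] at h3
          rw [show (2 : ℤ) + (0 - 1) - ((1 : ℕ) : ℤ) = 0 by norm_num] at h1
          obtain ⟨-, k, hk, hk'⟩ := h0_root X.toSpecialFibre hI 1 ⟨h1, h3⟩ hne
          exact hα (isTate_of_root hq hk hk')
        · rw [X.gr_eq_bot a _ (Or.inl (by omega)), Submodule.mem_bot] at h1
          exact h1
      · exact (hvE a).2 hc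
    rw [hv0, map_zero] at hv
    apply hy0
    have := congrFun hv 0
    rw [Pi.single_eq_same] at this
    exact this.symm
  obtain ⟨x', hx', hxB', hx''⟩ := exists_eigen_mod (X.actC 0 X.frob) α (Z := X.cocycles 0 2)
    (fun x hx => zc_stable X 0 2 hx) hxc hxB hgen
  have e : ((2 : ℕ) : ℤ) - 2 = 0 := by norm_num
  apply hα
  apply h2
  apply eigGr X 2 2 (x := x')
  · rw [e]; exact hx'
  · rw [e]; exact hxB'
  · rw [e]; exact hx''

/-- If the slopes of `gr_2 H^3` of the generic fibre are at least one, then the restriction is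
surjective on the part of `H^2` of the double surfaces of slope less than one. -/
lemma res_surj' (hn : n = 3) (hI : HasIntegralFrobenius X.toSpecialFibre) (R : ValuationSubring Ω)
    (h3 : ∀ α, EigGr X 3 2 α → α / q ∈ R) {α : Ω} (hα : α / q ∉ R)
    {z : X.H 1} (hz : z ∈ frobPart X.toSpecialFibre 1 2 α) :
    ∃ y ∈ frobPart X.toSpecialFibre 0 2 α, X.res 0 y = z := by
  classical
  have hα' : (q : Ω)⁻¹ * α ∉ R := by rwa [← div_eq_inv_mul]
  have hcol : InColumn 1 1 := ⟨by simp, ⟨0, by simp⟩⟩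
  have hxE : (Pi.single 1 z : X.C) ∈ X.E₁ 1 2 := by
    apply X.single_mem hcol
    simpa using hz.1
  have hres : X.res 1 z = 0 := by
    by_contra hne
    exact hα' (mem_of_int R (h2_curve X.toSpecialFibre hn hI
      (res_frobPart X.toSpecialFibre 1 2 hz) hne))
  have hxc : (Pi.single 1 z : X.C) ∈ X.cocycles 1 2 := by
    refine ⟨hxE, ?_⟩
    rw [SetLike.mem_coe, LinearMap.mem_ker]
    funext b
    rw [X.diff_apply]
    by_cases hc : InColumn (1 + 1) b
    · have hc1 := hc.1
      rw [show |(1 : ℤ) + 1| = 2 by norm_num] at hc1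
      rw [X.cut_of hc, Pi.add_apply, X.gysC_apply, Pi.single_eq_of_ne (by omega), map_zero,
        add_zero]
      cases b with
      | zero => rfl
      | succ b =>
        rw [X.resC_succ]
        by_cases hb : b = 1
        · subst hb
          rw [Pi.single_eq_same, hres]
          rfl
        · rw [Pi.single_eq_of_ne hb, map_zero]
          rfl
    · rw [X.cut_of_not hc]
      rfl
  have hgen := single_gen X.toSpecialFibre 1 1 rfl hz.2
  by_cases hb : (Pi.single 1 z : X.C) ∈ X.coboundaries 1 2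
  · obtain ⟨v, hvE, hvg, hv⟩ := cob_gen X.toSpecialFibre 1 2 hgen hb
    rw [show (1 : ℤ) - 1 = 0 by norm_num] at hvE hvg hv
    have hv2 : v 2 = 0 := by
      by_contra hne
      have h4 := comp_gen X.toSpecialFibre 0 hvg 2
      rw [show (((2 : ℕ) : ℤ) - 0) / 2 = 1 by norm_num, zpow_one] at h4
      have h5 := (hvE 2).1
      rw [show (2 : ℤ) + 0 - ((2 : ℕ) : ℤ) = 0 by norm_num] at h5
      exact hα' (mem_of_int R (h0_root X.toSpecialFibre hI 2 ⟨h5, h4⟩ hne).1)
    refine ⟨v 0, ⟨?_, ?_⟩, ?_⟩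
    · have h5 := (hvE 0).1
      rwa [show (2 : ℤ) + 0 - ((0 : ℕ) : ℤ) = 2 by norm_num] at h5
    · have h4 := comp_gen X.toSpecialFibre 0 hvg 0
      rwa [show (((0 : ℕ) : ℤ) - 0) / 2 = 0 by norm_num, zpow_zero, inv_one, one_mul] at h4
    · have h6 := congrFun hv 1
      rw [Pi.single_eq_same, X.diff_apply, X.cut_of (by simpa using hcol), Pi.add_apply,
        X.gysC_apply] at h6
      have h7 : X.gys 1 (v (1 + 1)) = 0 := by
        have : v (1 + 1) = 0 := hv2
        rw [this, map_zero]
      rw [h7, add_zero] at h6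
      exact h6
  · exfalso
    obtain ⟨x', hx', hxB', hx''⟩ := exists_eigen_mod (X.actC 1 X.frob) α (Z := X.cocycles 1 2)
      (fun x hx => zc_stable X 1 2 hx) hxc hb hgen
    have e : ((3 : ℕ) : ℤ) - 2 = 1 := by norm_num
    apply hα
    apply h3
    apply eigGr X 3 2 (x := x')
    · rw [e]; exact hx'
    · rw [e]; exact hxB'
    · rw [e]; exact hx''

/-- The surjectivity of the restriction on the non-Tate part, from the rationality of the
characteristic polynomials. -/
theorem surj_nonTate (hn : n = 3) (hq : IsPrimePow q)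
    (hI : HasIntegralFrobenius X.toSpecialFibre)
    (hC0 : SameFrobenius X.toSpecialFibre X.toSpecialFibre 0 2)
    (hC1 : SameFrobenius X.toSpecialFibre X.toSpecialFibre 1 2)
    (R : ValuationSubring Ω) (hR : ((q : Ω))⁻¹ ∉ R)
    (h2 : ∀ α, EigGr X 2 2 α → IsTateNumber q α)
    (h3 : ∀ α, EigGr X 3 2 α → α / q ∈ R)
    (α : Ω) (hα : ¬ IsTateNumber q α) (z : X.H 1) (hz : z ∈ frobPart X.toSpecialFibre 1 2 α) :
    ∃ y ∈ frobPart X.toSpecialFibre 0 2 α, X.res 0 y = z := by
  by_cases hz0 : z = 0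
  · exact ⟨0, Submodule.zero_mem _, by rw [hz0, map_zero]⟩
  obtain ⟨y, hy, hy0, hyα⟩ := exists_eigen_gr X.toSpecialFibre 1 2 hz hz0
  have hint := hI 1 2 α y hy hy0 hyα
  have hw := X.weil 1 2 α y hy hy0 hyα
  -- a conjugate of slope less than one
  obtain ⟨α', hα', hαR⟩ : ∃ α' : Ω, Polynomial.aeval α' (minpoly ℚ α) = 0 ∧ α' / q ∉ R := by
    by_contra hcon
    push Not at hcon
    exact hα (tate_of_val hq R hR hint hw hcon)
  have hconj : AreConjugate α α' := by
    have halg : IsAlgebraic ℚ α := hw.1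
    refine ⟨halg, ?_, ?_⟩
    · exact ⟨minpoly ℚ α, minpoly.ne_zero halg.isIntegral, hα'⟩
    · exact minpoly.eq_of_irreducible_of_monic (minpoly.irreducible halg.isIntegral) hα'
        (minpoly.monic halg.isIntegral)
  -- the comparison of the dimensions
  have hle : finrank Ω (frobPart X.toSpecialFibre 1 2 α) ≤
      finrank Ω (frobPart X.toSpecialFibre 0 2 α) := by
    rw [hC0 α α' hconj, hC1 α α' hconj]
    have h4 : frobPart X.toSpecialFibre 1 2 α' ≤
        (frobPart X.toSpecialFibre 0 2 α').map (X.res 0) := by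
      intro z' hz'
      obtain ⟨y', hy', hyz'⟩ := res_surj' X hn hI R h3 hαR hz'
      exact ⟨y', hy', hyz'⟩
    exact (Submodule.finrank_mono h4).trans (Submodule.finrank_map_le _ _)
  have hinj : Function.Injective ((X.res 0).domRestrict (frobPart X.toSpecialFibre 0 2 α)) := by
    rw [← LinearMap.ker_eq_bot, LinearMap.ker_eq_bot']
    intro y' hy'
    exact Subtype.ext (res_inj' X hI h2 hα y'.2 hy')
  have hmap : (frobPart X.toSpecialFibre 0 2 α).map (X.res 0) ≤
      frobPart X.toSpecialFibre 1 2 α := by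
    rintro _ ⟨y', hy', rfl⟩
    exact res_frobPart X.toSpecialFibre 0 2 hy'
  have heq : finrank Ω ((frobPart X.toSpecialFibre 0 2 α).map (X.res 0)) =
      finrank Ω (frobPart X.toSpecialFibre 0 2 α) := by
    have h5 : LinearMap.range ((X.res 0).domRestrict (frobPart X.toSpecialFibre 0 2 α)) =
        (frobPart X.toSpecialFibre 0 2 α).map (X.res 0) := by
      ext t
      constructor
      · rintro ⟨s, rfl⟩
        exact ⟨s, s.2, rfl⟩
      · rintro ⟨s, hs, rfl⟩
        exact ⟨⟨s, hs⟩, rfl⟩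
    rw [← h5, LinearMap.finrank_range_of_inj hinj]
  have hfull := Submodule.eq_of_le_of_finrank_le hmap (by rw [heq]; exact hle)
  rw [← hfull] at hz
  obtain ⟨y', hy', hyz'⟩ := hz
  exact ⟨y', hy', hyz'⟩

end

/-- mw purity in the p-adic theory of threefolds with `rank (N ^ 3) = h^(0, 3)` on `H^3`. -/
theorem mw_main [IsAlgClosed Ω] (hq : IsPrimePow q) (X : Degeneration.{u, v} Ω Γ 3 q)
    (A : DivisorClasses X.toSpecialFibre) (hI : HasIntegralFrobenius X.toSpecialFibre)
    (hC0 : SameFrobenius X.toSpecialFibre X.toSpecialFibre 0 2)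
    (hC1 : SameFrobenius X.toSpecialFibre X.toSpecialFibre 1 2)
    {val : Ω → ℝ} (hval : IsSlope q val) {hdg : ℕ → ℕ}
    (hN : NewtonAboveHodge X.toSemistableModel val 3 hdg)
    (hmax : hdg 0 ≤ finrank Ω (LinearMap.range (X.N 3 ^ 3)))
    (h2 : ∀ α, EigGr X.toSemistableModel 2 2 α → IsTateNumber q α)
    (hT : A.TateConj 0) (k : ℕ) :
    IsMWPure q k (X.actV k X.frob) (X.N k) := by
  have hq0 : (q : Ω) ≠ 0 := Nat.cast_ne_zero.2 X.q_ne
  exact mw_three X rfl hI A hT (fun α hα z hz => surj_nonTate X.toSemistableModel rfl hq hI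
    hC0 hC1 hval.ring (hval.inv_notMem hq0) h2
    (fun β hβ => hval.div_mem hq0 (slope_ge X.toSemistableModel hI hval hN
      (hmax.trans (rank_le X.toSemistableModel)) (by norm_num) hβ)) α hα z hz) k

end Pool.Agent.T2h11.WMP
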