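import Pool.Agent.T2h11.WMP.Defs

/-!
# The valuation ring and the polygons
-/

set_option autoImplicit false

namespace Pool.Agent.T2h11.WMP

universe u v

open Module

section val

variable {Ω : Type u} [Field Ω] [CharZero Ω] {q : ℕ} {val : Ω → ℝ}

lemma IsSlope.one (h : IsSlope q val) : val 1 = 0 := by
  have := h.mul 1 1 one_ne_zero one_ne_zero
  rw [mul_one] at this
  linarith

lemma IsSlope.neg_one (h : IsSlope q val) : val (-1) = 0 := by
  have := h.mul (-1) (-1) (by simp) (by simp)
  rw [neg_mul_neg, mul_one, h.one] at this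
  linarith

lemma IsSlope.inv (h : IsSlope q val) {x : Ω} (hx : x ≠ 0) : val x⁻¹ = -val x := by
  have := h.mul x x⁻¹ hx (inv_ne_zero hx)
  rw [mul_inv_cancel₀ hx, h.one] at this
  linarith

/-- The valuation ring. -/
def IsSlope.ring (h : IsSlope q val) : ValuationSubring Ω where
  carrier := {x | x = 0 ∨ 0 ≤ val x}
  mul_mem' := by
    intro a b ha hb
    by_cases ha0 : a = 0
    · left; simp [ha0]
    by_cases hb0 : b = 0
    · left; simp [hb0]
    right
    rw [h.mul a b ha0 hb0]
    have h1 := ha.resolve_left ha0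
    have h2 := hb.resolve_left hb0
    linarith
  one_mem' := Or.inr (by rw [h.one])
  add_mem' := by
    intro a b ha hb
    by_cases ha0 : a = 0
    · subst ha0; simpa using hb
    by_cases hb0 : b = 0
    · subst hb0; simpa using ha
    by_cases hab : a + b = 0
    · left; exact hab
    right
    exact le_trans (le_min (ha.resolve_left ha0) (hb.resolve_left hb0)) (h.add a b ha0 hb0 hab)
  zero_mem' := Or.inl rfl
  neg_mem' := by
    intro a ha
    by_cases ha0 : a = 0
    · left; simp [ha0]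
    right
    have h1 : val (-a) = val a := by
      have := h.mul (-1) a (by simp) ha0
      rw [h.neg_one, zero_add, neg_one_mul] at this
      exact this
    rw [h1]
    exact ha.resolve_left ha0
  mem_or_inv_mem' := by
    intro x
    by_cases hx : x = 0
    · left; left; exact hx
    rcases le_total 0 (val x) with h1 | h1
    · left; right; exact h1
    · right; right
      rw [h.inv hx]
      linarith

lemma IsSlope.mem_ring (h : IsSlope q val) {x : Ω} (hx : x ≠ 0) : x ∈ h.ring ↔ 0 ≤ val x :=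
  ⟨fun h1 => h1.resolve_left hx, fun h1 => Or.inr h1⟩

lemma IsSlope.inv_notMem (h : IsSlope q val) (hq : (q : Ω) ≠ 0) : (q : Ω)⁻¹ ∉ h.ring := by
  rw [h.mem_ring (inv_ne_zero hq), h.inv hq, h.norm]
  norm_num

lemma IsSlope.div_mem (h : IsSlope q val) (hq : (q : Ω) ≠ 0) {α : Ω} (hα : 1 ≤ val α) :
    α / q ∈ h.ring := by
  by_cases h0 : α = 0
  · left; simp [h0]
  rw [h.mem_ring (div_ne_zero h0 hq), div_eq_mul_inv, h.mul α _ h0 (inv_ne_zero hq), h.inv hq,
    h.norm]
  linarith

lemma IsSlope.root (h : IsSlope q val) {α : Ω} {k : ℕ} (hk : 0 < k) (hα : α ^ k = 1) :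
    val α = 0 := by
  have h0 : α ≠ 0 := by
    rintro rfl
    rw [zero_pow hk.ne'] at hα
    exact zero_ne_one hα
  have h1 : ∀ m : ℕ, val (α ^ m) = m * val α := by
    intro m
    induction m with
    | zero => simp [h.one]
    | succ m ih =>
      rw [pow_succ, h.mul _ _ (pow_ne_zero _ h0) h0, ih]
      push_cast
      ring
  have h2 := h1 k
  rw [hα, h.one] at h2
  have h3 : (0 : ℝ) < k := by exact_mod_cast hk
  rcases mul_eq_zero.1 h2.symm with h4 | h4
  · exact absurd h4 h3.ne'
  · exact h4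

end val

/-- If there are at least as many slopes `0` as Hodge slopes `0`, there are exactly as many, and the
other slopes are at least `1`. -/
lemma slopes {r : ℕ} {s : Fin r → ℝ} {a : Fin r → ℕ} {h : ℕ} (hs : Monotone s)
    (hh : Nat.card {i // a i = 0} = h)
    (hN : ∀ m : ℕ, ∑ i ∈ Finset.univ.filter (fun i : Fin r => (i : ℕ) < m), (a i : ℝ) ≤
      ∑ i ∈ Finset.univ.filter (fun i : Fin r => (i : ℕ) < m), s i)
    (hc : h ≤ (Finset.univ.filter (fun i : Fin r => s i = 0)).card) :
    (Finset.univ.filter (fun i : Fin r => s i = 0)).card ≤ h ∧ ∀ i, s i = 0 ∨ 1 ≤ s i := by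
  classical
  have hh' : (Finset.univ.filter (fun i : Fin r => a i = 0)).card = h := by
    rw [← hh, Nat.card_eq_fintype_card, Fintype.card_subtype]
  -- the slopes are nonnegative
  have hnn : ∀ i, 0 ≤ s i := by
    intro i
    have hr : 0 < r := lt_of_le_of_lt (Nat.zero_le _) i.2
    have h1 := hN 1
    have h2 : Finset.univ.filter (fun i : Fin r => (i : ℕ) < 1) = {⟨0, hr⟩} := by
      ext j
      simp only [Finset.mem_filter, Finset.mem_univ, true_and, Finset.mem_singleton, Fin.ext_iff]
      omega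
    rw [h2, Finset.sum_singleton, Finset.sum_singleton] at h1
    have h3 : (0 : ℝ) ≤ (a ⟨0, hr⟩ : ℝ) := Nat.cast_nonneg _
    have h4 : s ⟨0, hr⟩ ≤ s i := hs (Fin.mk_le_of_le_val (Nat.zero_le _))
    linarith
  -- slope zero implies Hodge slope zero
  have hZ : ∀ i, s i = 0 → a i = 0 := by
    intro i hi
    have h1 := hN (i + 1)
    have h2 : ∑ j ∈ Finset.univ.filter (fun j : Fin r => (j : ℕ) < (i : ℕ) + 1), s j = 0 := by
      apply Finset.sum_eq_zero
      intro j hj
      have hj' : (j : ℕ) < i + 1 := (Finset.mem_filter.1 hj).2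
      have h3 : s j ≤ s i := hs (Fin.le_def.2 (by omega))
      exact le_antisymm (by rw [hi] at h3; exact h3) (hnn j)
    rw [h2] at h1
    have h4 : (a i : ℝ) ≤
        ∑ j ∈ Finset.univ.filter (fun j : Fin r => (j : ℕ) < (i : ℕ) + 1), (a j : ℝ) :=
      Finset.single_le_sum (f := fun j => (a j : ℝ)) (fun j _ => Nat.cast_nonneg _)
        (Finset.mem_filter.2 ⟨Finset.mem_univ _, by omega⟩)
    have h5 : (a i : ℝ) ≤ 0 := h4.trans h1
    exact_mod_cast le_antisymm h5 (Nat.cast_nonneg _)
  have hsub : Finset.univ.filter (fun i : Fin r => s i = 0) ⊆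
      Finset.univ.filter (fun i : Fin r => a i = 0) := by
    intro i hi
    exact Finset.mem_filter.2 ⟨Finset.mem_univ _, hZ i (Finset.mem_filter.1 hi).2⟩
  have heq := Finset.eq_of_subset_of_card_le hsub (by rw [hh']; exact hc)
  refine ⟨by rw [heq, hh'], fun i => ?_⟩
  by_contra hcon
  push Not at hcon
  obtain ⟨hi0, hi1⟩ := hcon
  -- the first index with nonzero slope
  obtain ⟨i0, hi0', hmin⟩ := Finset.exists_min_image
    (Finset.univ.filter (fun i : Fin r => s i ≠ 0)) (fun i => (i : ℕ))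
    ⟨i, Finset.mem_filter.2 ⟨Finset.mem_univ _, hi0⟩⟩
  have hne : s i0 ≠ 0 := (Finset.mem_filter.1 hi0').2
  have hle : (i0 : ℕ) ≤ i := hmin i (Finset.mem_filter.2 ⟨Finset.mem_univ _, hi0⟩)
  have ha0 : a i0 ≠ 0 := by
    intro h0
    have : i0 ∈ Finset.univ.filter (fun i : Fin r => a i = 0) :=
      Finset.mem_filter.2 ⟨Finset.mem_univ _, h0⟩
    rw [← heq] at this
    exact hne (Finset.mem_filter.1 this).2
  have h1 := hN (i0 + 1)
  have h2 : ∑ j ∈ Finset.univ.filter (fun j : Fin r => (j : ℕ) < (i0 : ℕ) + 1), s j = s i0 := by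
    apply Finset.sum_eq_single_of_mem i0 (Finset.mem_filter.2 ⟨Finset.mem_univ _, by omega⟩)
    intro j hj hji
    by_contra h0
    have h3 := hmin j (Finset.mem_filter.2 ⟨Finset.mem_univ _, h0⟩)
    have h4 : (j : ℕ) < i0 + 1 := (Finset.mem_filter.1 hj).2
    exact hji (Fin.ext (by omega))
  rw [h2] at h1
  have h4 : (a i0 : ℝ) ≤
      ∑ j ∈ Finset.univ.filter (fun j : Fin r => (j : ℕ) < (i0 : ℕ) + 1), (a j : ℝ) :=
    Finset.single_le_sum (f := fun j => (a j : ℝ)) (fun j _ => Nat.cast_nonneg _)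
      (Finset.mem_filter.2 ⟨Finset.mem_univ _, by omega⟩)
  have h5 : (1 : ℝ) ≤ a i0 := by exact_mod_cast Nat.one_le_iff_ne_zero.2 ha0
  have h6 : s i0 ≤ s i := hs (Fin.le_def.2 hle)
  linarith

end Pool.Agent.T2h11.WMP
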