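import Pool.Agent.T2h11.WMP.Two

/-!
# The rank of `N ^ 2` on `H^3`
-/

set_option autoImplicit false

namespace Pool.Agent.T2h11.WMP

universe u v

open Module Pool.Agent.Y143 Pool.Agent.X302.MW

variable {Ω : Type u} [Field Ω] [CharZero Ω] {Γ : Type} {q : ℕ}

/-- The map `N ^ 3` is injective on `gr_6 H^3`. -/
lemma mem_W5 (X : SemistableModel.{u, v} Ω Γ 3 q) (A : DivisorClasses X.toSpecialFibre)
    {x : X.V 3} (h : (X.N 3 ^ 3) x = 0) : x ∈ X.W 3 5 := by
  have hx : x ∈ X.W 3 (((3 : ℕ) : ℤ) + ((3 : ℕ) : ℤ)) := by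
    have := W_eq_top X (k := 3)
    rw [this]
    exact Submodule.mem_top
  obtain ⟨ξ, hξ⟩ := X.sp_left 3 _ x hx
  have h1 := X.N_pow_sp hξ 3 le_rfl
  rw [h] at h1
  have h2 := (X.sp_ker 3 _ _ _ h1).1 (Submodule.zero_mem _)
  have h3 := (X.sp_mem 3 _ _ _ hξ).2
  rw [show ((3 : ℕ) : ℤ) - (((3 : ℕ) : ℤ) + ((3 : ℕ) : ℤ)) = -3 by norm_num,
    show ((3 : ℕ) : ℤ) + ((3 : ℕ) : ℤ) = 6 by norm_num] at h3
  rw [show ((3 : ℕ) : ℤ) - (((3 : ℕ) : ℤ) + ((3 : ℕ) : ℤ) - 2 * ((3 : ℕ) : ℤ)) = 3 by norm_num,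
    show ((3 : ℕ) : ℤ) + ((3 : ℕ) : ℤ) - 2 * ((3 : ℕ) : ℤ) = 0 by norm_num] at h2
  obtain ⟨η, hη, hηξ⟩ := h2
  rw [show (3 : ℤ) - 1 = 2 by norm_num] at hη hηξ
  -- the component of `ξ`
  have hres : ξ 3 = X.res 2 (η 2) := by
    have h4 := congrFun hηξ 3
    rw [X.diff_apply, X.cut_of (show InColumn (2 + 1) 3 from ⟨by norm_num, ⟨0, by norm_num⟩⟩),
      Pi.add_apply, X.gysC_apply, X.resC_succ] at h4
    have h5 : X.gys 3 (η (3 + 1)) = 0 := by
      rw [X.eq_zero_of_lt (show 3 < 3 + 1 by omega) (η (3 + 1)), map_zero]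
    rw [h5, add_zero] at h4
    exact h4.symm
  have hgys : X.gys 2 (ξ 3) = 0 := by
    have h4 : X.diff (-3) ξ = 0 := h3.2
    have h5 := congrFun h4 2
    rw [X.diff_apply, X.cut_of (show InColumn (-3 + 1) 2 from ⟨by norm_num, ⟨2, by norm_num⟩⟩),
      Pi.add_apply, X.gysC_apply, X.resC_succ] at h5
    have h6 : ξ 1 = 0 := by
      apply (h3.1 1).2
      rintro ⟨h7, -⟩
      norm_num at h7
    rw [h6, map_zero, zero_add] at h5
    exact h5
  have hη2 : η 2 ∈ X.gr 2 0 := by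
    have := (hη 2).1
    rwa [show (0 : ℤ) + 2 - ((2 : ℕ) : ℤ) = 0 by norm_num] at this
  have hres0 : ξ 3 = 0 := by
    rw [hres]
    apply crit0 A 2 hη2
    rw [← hres]
    exact hgys
  have hξ0 : ξ = 0 := by
    funext b
    by_cases hb : b = 3
    · subst hb
      exact hres0
    · by_cases hb' : 3 < b
      · exact X.eq_zero_of_lt hb' _
      · apply (h3.1 b).2
        rintro ⟨h7, -⟩
        rw [show |(-3 : ℤ)| = 3 by norm_num] at h7
        omega
  have h8 := (X.sp_ker 3 _ _ _ hξ).2 (by rw [hξ0]; exact Submodule.zero_mem _)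
  exact X.W_cast (by norm_num) h8

/-- The rank of `N ^ 2` on `H^3` is at most the sum of the dimensions of `W_0` and `W_1`. -/
lemma rank_sq_le (X : SemistableModel.{u, v} Ω Γ 3 q) (A : DivisorClasses X.toSpecialFibre) :
    finrank Ω (LinearMap.range (X.N 3 ^ 2)) ≤ finrank Ω (X.W 3 0) + finrank Ω (X.W 3 1) := by
  have := V_finite X 3
  set R := LinearMap.range (X.N 3 ^ 2) with hR
  let f : R →ₗ[Ω] X.V 3 := (X.N 3).domRestrict R
  have htop : ∀ x : X.V 3, x ∈ X.W 3 6 := by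
    intro x
    have h1 := W_eq_top X (k := 3)
    rw [show ((3 : ℕ) : ℤ) + ((3 : ℕ) : ℤ) = 6 by norm_num] at h1
    rw [h1]
    exact Submodule.mem_top
  have h1 := LinearMap.finrank_range_add_finrank_ker f
  have h2 : finrank Ω (LinearMap.range f) ≤ finrank Ω (X.W 3 0) := by
    apply Submodule.finrank_mono
    rintro _ ⟨⟨y, x, rfl⟩, rfl⟩
    show X.N 3 ((X.N 3 ^ 2) x) ∈ X.W 3 0
    rw [pow_two, Module.End.mul_apply]
    exact X.W_cast (by norm_num) (N_W X (N_W X (N_W X (htop x))))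
  have h3 : finrank Ω (LinearMap.ker f) ≤ finrank Ω (X.W 3 1) := by
    have h4 : ∀ y : LinearMap.ker f, ((y : R) : X.V 3) ∈ X.W 3 1 := by
      rintro ⟨⟨y, x, rfl⟩, hy⟩
      have hy' : X.N 3 ((X.N 3 ^ 2) x) = 0 := hy
      have h5 : x ∈ X.W 3 5 := by
        apply mem_W5 X A
        rw [pow_succ', Module.End.mul_apply]
        exact hy'
      show (X.N 3 ^ 2) x ∈ X.W 3 1
      rw [pow_two, Module.End.mul_apply]
      exact X.W_cast (by norm_num) (N_W X (N_W X h5))
    let g : LinearMap.ker f →ₗ[Ω] X.W 3 1 :=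
      LinearMap.codRestrict (X.W 3 1) (R.subtype ∘ₗ (LinearMap.ker f).subtype) h4
    apply LinearMap.finrank_le_finrank_of_injective (f := g)
    intro y y' hyy'
    have h5 : (((g y : X.W 3 1) : X.V 3)) = ((g y' : X.W 3 1) : X.V 3) := congrArg _ hyy'
    exact Subtype.ext (Subtype.ext h5)
  omega

/-! ### The statement -/

section

variable (X : SemistableModel.{u, v} Ω Γ 3 q)

/-- The known facts on the `p`-adic theory: the Frobenius eigenvalues on the strata are algebraic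
integers; the characteristic polynomials on `H^2(Y^(1))`, on `H^2(Y^(2))` and on the part of weight
at most one of `H^3` of the generic fibre are rational; the Newton polygon of `H^3` lies above the
Hodge polygon (`hdg a = h^(a, 3 - a)`). -/
structure PadicFacts (val : Ω → ℝ) (hdg : ℕ → ℕ) : Prop where
  integral : HasIntegralFrobenius X.toSpecialFibre
  rational_one : SameFrobenius X.toSpecialFibre X.toSpecialFibre 0 2
  rational_two : SameFrobenius X.toSpecialFibre X.toSpecialFibre 1 2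
  rational_low : RationalLow X 3
  slope : IsSlope q val
  polygon : NewtonAboveHodge X val 3 hdg

/-- The rank of `N ^ 2` on `H^3` is at least `2 h^(0, 3)`. -/
def MaximalRank (hdg : ℕ → ℕ) : Prop := 2 * hdg 0 ≤ rankPow (X.N 3) 2

/-- The Frobenius eigenvalues on `gr_2 H^2` are products of `q` and roots of unity. -/
def TateTypeH2 : Prop := ∀ α, EigGr X 2 2 α → IsTateNumber q α

/-- `H^k` is mw pure of weight `k`, for all `k`. -/
def WeightMonodromy : Prop := ∀ k : ℕ, IsMWPure q k (X.actV k X.frob) (X.N k)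

end

/-- mw purity in the p-adic theory of threefolds with `rank (N ^ 2) = 2 h^(0, 3)` on `H^3`. -/
theorem mw_main_two [IsAlgClosed Ω] (hq : IsPrimePow q) (X : Degeneration.{u, v} Ω Γ 3 q)
    (A : DivisorClasses X.toSpecialFibre) {val : Ω → ℝ} {hdg : ℕ → ℕ}
    (hX : PadicFacts X.toSemistableModel val hdg) (hN : MaximalRank X.toSemistableModel hdg)
    (h2 : TateTypeH2 X.toSemistableModel) (hT : A.TateConj 0) :
    WeightMonodromy X.toSemistableModel := by
  intro k
  have hq0 : (q : Ω) ≠ 0 := Nat.cast_ne_zero.2 X.q_ne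
  exact mw_three X rfl hX.integral A hT (fun α hα z hz => surj_nonTate X.toSemistableModel rfl hq
    hX.integral hX.rational_one hX.rational_two hX.slope.ring (hX.slope.inv_notMem hq0) h2
    (fun β hβ => hX.slope.div_mem hq0 (slope_ge_two X.toSemistableModel hX.integral hX.slope
      hX.polygon hX.rational_low (le_trans hN (rank_sq_le X.toSemistableModel A)) hβ)) α hα z hz) k

end Pool.Agent.T2h11.WMP
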