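import Pool.Agent.T2h11.WMP.Rank

/-!
# The graded piece `gr_2 H^3`
-/

set_option autoImplicit false

namespace Pool.Agent.T2h11.WMP

universe u v

open Module Pool.Agent.Y143 Pool.Agent.X302.MW

variable {Ω : Type u} [Field Ω] [CharZero Ω] {Γ : Type} {n q : ℕ}

/-- If the generalized eigenspace meets `Z` in a subspace of `B`, there are no eigenvectors in
`Z / B`. -/
lemma mem_of_eigen_mod_in {K : Type*} [Field K] {V : Type*} [AddCommGroup V] [Module K V]
    [FiniteDimensional K V] (F : Module.End K V) (α : K) {Z B : Submodule K V}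
    (hZ : ∀ x ∈ Z, F x ∈ Z) (hB : ∀ x ∈ B, F x ∈ B)
    (hE : ∀ x ∈ Z, x ∈ F.maxGenEigenspace α → x ∈ B) {x : V} (hxZ : x ∈ Z)
    (hx : F x - α • x ∈ B) : x ∈ B := by
  let G : Module.End K Z := F.restrict hZ
  have hpow : ∀ (m : ℕ) (y : Z), (((G - α • (1 : Module.End K Z)) ^ m) y : V) =
      ((F - α • (1 : Module.End K V)) ^ m) y := by
    intro m
    induction m with
    | zero => intro y; rfl
    | succ m ih =>
      intro y
      rw [pow_succ, pow_succ, Module.End.mul_apply, Module.End.mul_apply, ih]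
      rfl
  have h1 : (⟨x, hxZ⟩ : Z) ∈ B.comap Z.subtype := by
    apply mem_of_eigen_mod G α
    · intro y hy
      exact hB _ hy
    · intro y hy
      obtain ⟨k, hk⟩ := Module.End.mem_maxGenEigenspace G α y |>.1 hy
      apply hE y y.2
      rw [Module.End.mem_maxGenEigenspace]
      refine ⟨k, ?_⟩
      rw [← hpow, hk]
      rfl
    · exact hx
  exact h1

variable [IsAlgClosed Ω]

/-- If the restriction is surjective on the part of eigenvalue `α`, this eigenvalue does not occur in
`gr_2 H^3`. -/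
lemma not_eigGr (X : SemistableModel.{u, v} Ω Γ n q) (hn : n = 3)
    (hI : HasIntegralFrobenius X.toSpecialFibre) {α : Ω} (hα : ¬ IsTateNumber q α)
    (hs : ∀ z ∈ frobPart X.toSpecialFibre 1 2 α,
      ∃ y ∈ frobPart X.toSpecialFibre 0 2 α, X.res 0 y = z) : ¬ EigGr X 3 2 α := by
  classical
  have hq : (q : Ω) ≠ 0 := Nat.cast_ne_zero.2 X.q_ne
  rintro ⟨v, hv, hv', hvα⟩
  obtain ⟨x, hx⟩ := X.sp_left 3 2 v hv
  have h1 := (X.sp_mem 3 2 v x hx).2
  have hxB : x ∉ X.coboundaries ((3 : ℕ) - 2) 2 := fun hc => hv' ((X.sp_ker 3 2 v x hx).2 hc)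
  have h2 : (X.actV 3 X.frob v - α • v, X.actC ((3 : ℕ) - 2) X.frob x - α • x) ∈ X.sp 3 2 :=
    Submodule.sub_mem _ (X.sp_act 3 2 v x X.frob hx) (Submodule.smul_mem _ α hx)
  have h3 := (X.sp_ker 3 2 _ _ h2).1 hvα
  apply hxB
  have e : ((3 : ℕ) : ℤ) - 2 = 1 := by norm_num
  refine mem_of_eigen_mod_in (X.actC ((3 : ℕ) - 2) X.frob) α (Z := X.cocycles ((3 : ℕ) - 2) 2)
    (fun y hy => zc_stable X _ 2 hy) (fun y hy => X.actC_bd _ 2 X.frob hy) ?_ h1 h3
  rw [e]
  intro x hx hxg
  have hxE := hx.1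
  have hcol : InColumn 1 1 := ⟨by simp, ⟨0, by simp⟩⟩
  have hx1 : x 1 ∈ frobPart X.toSpecialFibre 1 2 α := by
    constructor
    · have := (hxE 1).1
      rwa [show (2 : ℤ) + 1 - ((1 : ℕ) : ℤ) = 2 by norm_num] at this
    · have := comp_gen X.toSpecialFibre 1 hxg 1
      rwa [show (((1 : ℕ) : ℤ) - 1) / 2 = 0 by norm_num, zpow_zero, inv_one, one_mul] at this
  have hx' : x = Pi.single 1 (x 1) := by
    funext b
    by_cases hb : b = 1
    · subst hb
      rw [Pi.single_eq_same]
    · rw [Pi.single_eq_of_ne hb]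
      by_cases hc : InColumn 1 b
      · have hc2 := hc.2
        have hc1 := hc.1
        rw [abs_one] at hc1
        by_cases hb3 : b = 3
        · subst hb3
          by_contra hne
          have h3 := comp_gen X.toSpecialFibre 1 hxg 3
          rw [show (((3 : ℕ) : ℤ) - 1) / 2 = 1 by norm_num, zpow_one] at h3
          have h4 := (hxE 3).1
          rw [show (2 : ℤ) + 1 - ((3 : ℕ) : ℤ) = 0 by norm_num] at h4
          obtain ⟨-, k, hk, hk'⟩ := h0_root X.toSpecialFibre hI 3 ⟨h4, h3⟩ hne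
          exact hα (isTate_of_root hq hk hk')
        · exact X.eq_zero_of_lt (by omega) _
      · exact (hxE b).2 hc
  obtain ⟨y, hy, hyz⟩ := hs (x 1) hx1
  have hcol0 : InColumn 0 0 := ⟨by simp, ⟨0, by simp⟩⟩
  refine ⟨Pi.single 0 y, ?_, ?_⟩
  · rw [show (1 : ℤ) - 1 = 0 by norm_num]
    apply X.single_mem hcol0
    simpa using hy.1
  · rw [show (1 : ℤ) - 1 = 0 by norm_num, hx']
    funext b
    rw [X.diff_apply]
    by_cases hc : InColumn (0 + 1) b
    · rw [X.cut_of hc, Pi.add_apply, X.gysC_apply, Pi.single_eq_of_ne (by omega), map_zero,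
        add_zero]
      cases b with
      | zero =>
        have := hc.1
        rw [zero_add, abs_one] at this
        norm_num at this
      | succ b =>
        rw [X.resC_succ]
        by_cases hb : b = 0
        · subst hb
          rw [Pi.single_eq_same, hyz]
          show x 1 = (Pi.single 1 (x 1) : X.C) 1
          rw [Pi.single_eq_same]
        · rw [Pi.single_eq_of_ne hb, map_zero, Pi.single_eq_of_ne (by omega)]
    · rw [X.cut_of_not hc]
      by_cases hb : b = 1
      · subst hb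
        exact absurd (by simpa using hcol) hc
      · rw [Pi.single_eq_of_ne hb]

/-- The Frobenius eigenvalues on `gr_2 H^3` are products of `q` and roots of unity. -/
theorem tate_gr (hq : IsPrimePow q) (X : SemistableModel.{u, v} Ω Γ 3 q)
    (A : DivisorClasses X.toSpecialFibre) {val : Ω → ℝ} {hdg : ℕ → ℕ}
    (hX : PadicFacts X val hdg) (hN : MaximalRank X hdg) (h2 : TateTypeH2 X) (α : Ω)
    (hα : EigGr X 3 2 α) : IsTateNumber q α := by
  by_contra hcon
  have hq0 : (q : Ω) ≠ 0 := Nat.cast_ne_zero.2 X.q_ne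
  exact not_eigGr X rfl hX.integral hcon (fun z hz => surj_nonTate X rfl hq
    hX.integral hX.rational_one hX.rational_two hX.slope.ring (hX.slope.inv_notMem hq0) h2
    (fun β hβ => hX.slope.div_mem hq0 (slope_ge_two X hX.integral hX.slope
      hX.polygon hX.rational_low (le_trans hN (rank_sq_le X A)) hβ)) α hcon z hz) hα

end Pool.Agent.T2h11.WMP
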