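import Pool.Agent.T2h11.WMP.Comb
import Pool.Agent.T2h11.WMP.Main

/-!
# The slopes on `gr_2`
-/

set_option autoImplicit false

namespace Pool.Agent.T2h11.WMP

universe u v

open Module Pool.Agent.Y143 Pool.Agent.X302.MW

variable {Ω : Type u} [Field Ω] [CharZero Ω] {Γ : Type} {n q : ℕ}

/-- The multiplicity of the eigenvalue `α` of the Frobenius on the part `W_w H^k` of weights at most
`w`. -/
noncomputable def multW (X : SemistableModel.{u, v} Ω Γ n q) (k : ℕ) (w : ℤ) (α : Ω) : ℕ :=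
  dimGenOn (X.actV k X.frob) (X.W k w) α

/-- The characteristic polynomial of the Frobenius on the part `W_1 H^k` of weights at most `1` is
rational: conjugate numbers have the same multiplicity. -/
def RationalLow (X : SemistableModel.{u, v} Ω Γ n q) (k : ℕ) : Prop :=
  ∀ α α' : Ω, AreConjugate α α' → multW X k 1 α = multW X k 1 α'

section

variable (X : SemistableModel.{u, v} Ω Γ n q)

/-- The eigenvalues on `gr_w` are Weil numbers of weight `w`. -/
lemma weil_gr {k : ℕ} {w : ℤ} {v : X.V k} (hv : v ∈ X.W k w) (hv0 : v ∉ X.W k (w - 1)) {μ : Ω}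
    (hμ : X.actV k X.frob v = μ • v) : IsWeilNumber q w μ := by
  obtain ⟨x, hx⟩ := X.sp_left k w v hv
  have h1 := (X.sp_mem k w v x hx).2
  have hxB : x ∉ X.coboundaries (k - w) w := fun hc => hv0 ((X.sp_ker k w v x hx).2 hc)
  have h2 : (X.actV k X.frob v - μ • v, X.actC (k - w) X.frob x - μ • x) ∈ X.sp k w :=
    Submodule.sub_mem _ (X.sp_act k w v x X.frob hx) (Submodule.smul_mem _ μ hx)
  have h3 : X.actC (k - w) X.frob x - μ • x ∈ X.coboundaries (k - w) w := by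
    rw [← X.sp_ker k w _ _ h2, hμ, sub_self]
    exact Submodule.zero_mem _
  obtain ⟨y, hy, hy0, hyμ⟩ := exists_eigen (S := X.actC (k - w) X.frob)
    (X.bd_le_zc (k - w) w) (fun z hz => X.actC_bd (k - w) w X.frob hz) h1 hxB h3
  exact X.weil_E₁ hy.1 hy0 hyμ

end

/-- A nonzero generalized eigenvector in a stable subspace gives an eigenvector. -/
lemma exists_eigen_in {K : Type*} [Field K] {V : Type*} [AddCommGroup V] [Module K V]
    (F : Module.End K V) {B : Submodule K V} (hB : ∀ x ∈ B, F x ∈ B) {μ : K} {x : V} (hx : x ∈ B)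
    (hxE : x ∈ F.maxGenEigenspace μ) (hx0 : x ≠ 0) : ∃ y ∈ B, y ≠ 0 ∧ F y = μ • y := by
  obtain ⟨y, hy, hy0, h⟩ := exists_eigen_mod F μ (Z := B) (B := ⊥) hB hx (by simpa using hx0) hxE
  exact ⟨y, hy, by simpa using hy0, by simpa [sub_eq_zero] using h⟩

/-- A stable subspace is contained in `U` if its generalized eigenspaces are. -/
lemma le_of_eigen' {K : Type*} [Field K] [IsAlgClosed K] {V : Type*} [AddCommGroup V] [Module K V]
    [FiniteDimensional K V] (F : Module.End K V) {B U : Submodule K V} (hB : ∀ x ∈ B, F x ∈ B)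
    (h : ∀ (μ : K) (y : V), y ∈ B → y ≠ 0 → F y = μ • y → B ⊓ F.maxGenEigenspace μ ≤ U) :
    B ≤ U := by
  have h1 : B = ⨆ μ, B ⊓ F.genEigenspace μ ⊤ :=
    Submodule.eq_iSup_inf_genEigenspace ⊤ hB (Module.End.iSup_maxGenEigenspace_eq_top F)
  rw [h1]
  apply iSup_le
  intro μ
  by_cases h2 : ∃ x ∈ B, x ∈ F.maxGenEigenspace μ ∧ x ≠ 0
  · obtain ⟨x, hx, hxE, hx0⟩ := h2
    obtain ⟨y, hy, hy0, hyμ⟩ := exists_eigen_in F hB hx hxE hx0
    exact h μ y hy hy0 hyμ
  · push Not at h2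
    intro x hx
    rw [h2 x hx.1 hx.2]
    exact U.zero_mem

variable (X : SemistableModel.{u, v} Ω Γ n q) [IsAlgClosed Ω]

/-- If the numbers of the eigenvalues of weight `0` and `1` are maximal, the slopes on `gr_2` are at
least one. -/
lemma slope_ge_two (hI : HasIntegralFrobenius X.toSpecialFibre) {val : Ω → ℝ}
    (hval : IsSlope q val) {k : ℕ} {hdg : ℕ → ℕ} (hN : NewtonAboveHodge X val k hdg)
    (hR : RationalLow X k)
    (hW : 2 * hdg 0 ≤ finrank Ω (X.W k 0) + finrank Ω (X.W k 1)) {α : Ω} (hα : EigGr X k 2 α) :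
    1 ≤ val α := by
  classical
  have := V_finite X k
  obtain ⟨r, β, a, hβ, ha, hmono, -, hle, -⟩ := hN
  unfold Lists at hβ ha
  unfold firstSum at hle
  obtain ⟨v, hv, hv', hvα⟩ := hα
  rw [show (2 : ℤ) - 1 = 1 by norm_num] at hv' hvα
  have hq0 : (q : Ω) ≠ 0 := Nat.cast_ne_zero.2 X.q_ne
  set F := X.actV k X.frob with hF
  set S : Finset Ω := Finset.univ.image β with hS
  have hmem : ∀ μ : Ω, μ ∈ S ↔ mult X k μ ≠ 0 := by
    intro μ
    rw [← hβ μ, hS, Finset.mem_image, Nat.card_ne_zero]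
    constructor
    · rintro ⟨i, -, hi⟩
      exact ⟨⟨⟨i, hi⟩⟩, inferInstance⟩
    · rintro ⟨⟨⟨i, hi⟩⟩, -⟩
      exact ⟨i, Finset.mem_univ _, hi⟩
  -- the multiplicities on `W_1`
  set m : Ω → ℕ := fun μ => multW X k 1 μ with hm
  have hm_le : ∀ μ, m μ ≤ mult X k μ := fun μ => Submodule.finrank_mono inf_le_right
  have hstab : ∀ x ∈ X.W k 1, F x ∈ X.W k 1 := fun x hx => W_stable X hx
  have hmS : ∀ μ, m μ ≠ 0 → μ ∈ S := by
    intro μ hμ
    rw [hmem]
    have := hm_le μ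
    omega
  have heig : ∀ μ, m μ ≠ 0 → ∃ y ∈ X.W k 1, y ≠ 0 ∧ F y = μ • y := by
    intro μ hμ
    have h1 : (X.W k 1 ⊓ F.maxGenEigenspace μ : Submodule Ω (X.V k)) ≠ ⊥ := by
      intro h
      apply hμ
      show finrank Ω (X.W k 1 ⊓ F.maxGenEigenspace μ : Submodule Ω (X.V k)) = 0
      rw [h, finrank_bot]
    obtain ⟨x, hx, hx0⟩ := (Submodule.ne_bot_iff _).1 h1
    exact exists_eigen_in F hstab hx.1 hx.2 hx0
  have hpos : ∀ μ y, y ∈ X.W k 1 → y ≠ 0 → F y = μ • y → m μ ≠ 0 := by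
    intro μ y hy hy0 hyμ h0
    have h1 : (X.W k 1 ⊓ F.maxGenEigenspace μ : Submodule Ω (X.V k)) = ⊥ :=
      Submodule.finrank_eq_zero.1 h0
    have h2 : y ∈ (X.W k 1 ⊓ F.maxGenEigenspace μ : Submodule Ω (X.V k)) := by
      refine ⟨hy, ?_⟩
      rw [SetLike.mem_coe, Module.End.mem_maxGenEigenspace]
      refine ⟨1, ?_⟩
      rw [pow_one, LinearMap.sub_apply, LinearMap.smul_apply, Module.End.one_apply, hyμ, sub_self]
    rw [h1, Submodule.mem_bot] at h2
    exact hy0 h2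
  -- roots of unity and the others
  let P : Ω → Prop := fun μ => ∃ j : ℕ, 0 < j ∧ μ ^ j = 1
  set S0 := S.filter P with hS0
  set S1 := S.filter (fun μ => ¬ P μ ∧ m μ ≠ 0) with hS1
  have hzero : ∀ μ ∈ S0, val μ = 0 := by
    intro μ hμ
    obtain ⟨j, hj, hj'⟩ := (Finset.mem_filter.1 hμ).2
    exact hval.root hj hj'
  have hW0 : finrank Ω (X.W k 0) ≤ ∑ μ ∈ S0, m μ := by
    refine le_trans ?_ (finrank_sup_le S0 (fun μ => X.W k 1 ⊓ F.maxGenEigenspace μ))
    apply Submodule.finrank_mono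
    apply le_of_eigen' F (fun x hx => W_stable X hx)
    intro μ y hy hy0 hyμ
    have h1 := root_of_W0 X hI hy hy0 hyμ
    have h2 := hmS μ (hpos μ y (X.W_mono k (by norm_num) hy) hy0 hyμ)
    refine le_trans ?_ (Finset.le_sup (f := fun μ => X.W k 1 ⊓ F.maxGenEigenspace μ)
      (Finset.mem_filter.2 ⟨h2, h1⟩))
    exact inf_le_inf_right _ (X.W_mono k (by norm_num))
  have hsplit : ∀ f : Ω → ℝ, ∑ μ ∈ S, (m μ : ℝ) * f μ =
      ∑ μ ∈ S0, (m μ : ℝ) * f μ + ∑ μ ∈ S1, (m μ : ℝ) * f μ := by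
    intro f
    rw [← Finset.sum_filter_add_sum_filter_not S P]
    congr 1
    symm
    apply Finset.sum_subset_zero_on_sdiff
    · intro μ hμ
      obtain ⟨h1, h2, -⟩ := Finset.mem_filter.1 hμ
      exact Finset.mem_filter.2 ⟨h1, h2⟩
    · intro μ hμ
      obtain ⟨h1, h2⟩ := Finset.mem_sdiff.1 hμ
      obtain ⟨h3, h4⟩ := Finset.mem_filter.1 h1
      have h5 : m μ = 0 := by
        by_contra h5
        exact h2 (Finset.mem_filter.2 ⟨h3, h4, h5⟩)
      rw [h5]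
      simp
    · intro μ _
      rfl
  have hW1 : finrank Ω (X.W k 1) ≤ ∑ μ ∈ S, m μ := by
    refine le_trans ?_ (finrank_sup_le S (fun μ => X.W k 1 ⊓ F.maxGenEigenspace μ))
    apply Submodule.finrank_mono
    apply le_of_eigen' F hstab
    intro μ y hy hy0 hyμ
    exact Finset.le_sup (f := fun μ => X.W k 1 ⊓ F.maxGenEigenspace μ)
      (hmS μ (hpos μ y hy hy0 hyμ))
  -- the involution on the eigenvalues of weight one
  have hwt : ∀ μ ∈ S1, IsWeilNumber q 1 μ ∧ μ ≠ 0 := by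
    intro μ hμ
    obtain ⟨h1, h2, h3⟩ := Finset.mem_filter.1 hμ
    obtain ⟨y, hy, hy0, hyμ⟩ := heig μ h3
    have h4 : IsWeilNumber q 1 μ := by
      apply weil_gr X hy _ hyμ
      rw [show (1 : ℤ) - 1 = 0 by norm_num]
      intro hc
      exact h2 (root_of_W0 X hI hc hy0 hyμ)
    refine ⟨h4, ?_⟩
    rintro rfl
    have h5 := h4.2 0 (by simp [minpoly.zero])
    rw [norm_zero] at h5
    have h6 : (0 : ℝ) < (q : ℝ) ^ (((1 : ℤ) : ℝ) / 2) :=
      Real.rpow_pos_of_pos (by exact_mod_cast Nat.pos_of_ne_zero X.q_ne) _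
    linarith
  have hinv : ∀ μ ∈ S1, (q : Ω) / μ ∈ S1 ∧ m ((q : Ω) / μ) = m μ ∧
      val ((q : Ω) / μ) = 1 - val μ := by
    intro μ hμ
    obtain ⟨h4, h5⟩ := hwt μ hμ
    obtain ⟨h1, h2, h3⟩ := Finset.mem_filter.1 hμ
    have h6 := conj_weight_one h5 h4
    have h7 : m ((q : Ω) / μ) = m μ := (hR _ _ h6).symm
    refine ⟨Finset.mem_filter.2 ⟨hmS _ (by rw [h7]; exact h3), ?_, by rw [h7]; exact h3⟩, h7, ?_⟩
    · rintro ⟨j, hj, hj'⟩
      apply h2
      refine ⟨j, hj, ?_⟩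
      have h8 : minpoly ℚ ((q : Ω) / μ) ∣ Polynomial.X ^ j - 1 := by
        apply minpoly.dvd
        simp [hj']
      rw [← h6.2.2] at h8
      have h9 := Polynomial.aeval_eq_zero_of_dvd_aeval_eq_zero h8 (minpoly.aeval ℚ μ)
      have h10 : μ ^ j - 1 = 0 := by simpa using h9
      exact sub_eq_zero.1 h10
    · rw [div_eq_mul_inv, hval.mul _ _ hq0 (inv_ne_zero h5), hval.inv h5, hval.norm]
      ring
  have hhalf : 2 * ∑ μ ∈ S1, (m μ : ℝ) * val μ = ∑ μ ∈ S1, (m μ : ℝ) * 1 := by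
    have h1 : ∑ μ ∈ S1, (m μ : ℝ) * val μ = ∑ μ ∈ S1, (m μ : ℝ) * (1 - val μ) := by
      refine Finset.sum_bij' (fun μ _ => (q : Ω) / μ) (fun μ _ => (q : Ω) / μ) ?_ ?_ ?_ ?_ ?_
      · exact fun μ hμ => (hinv μ hμ).1
      · exact fun μ hμ => (hinv μ hμ).1
      · intro μ hμ
        have := (hwt μ hμ).2
        field_simp
      · intro μ hμ
        have := (hwt μ hμ).2
        field_simp
      · intro μ hμ
        rw [(hinv μ hμ).2.1, (hinv μ hμ).2.2]
        ring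
    have h2 : ∑ μ ∈ S1, (m μ : ℝ) * (1 - val μ) =
        ∑ μ ∈ S1, (m μ : ℝ) * 1 - ∑ μ ∈ S1, (m μ : ℝ) * val μ := by
      rw [← Finset.sum_sub_distrib]
      exact Finset.sum_congr rfl fun μ _ => by ring
    linarith
  -- `α` is not exhausted by `W_1`
  have hαE : ¬ F.maxGenEigenspace α ≤ X.W k 1 := fun h =>
    hv' (mem_of_eigen_mod F α hstab h hvα)
  have hlt : m α < mult X k α := by
    apply Submodule.finrank_lt_finrank_of_lt
    refine lt_of_le_of_ne inf_le_right fun h => hαE ?_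
    rw [← h]
    exact inf_le_left
  have hαS : α ∈ S := by
    rw [hmem]
    omega
  -- the polygons
  have hmain := part_slopes (m := fun μ => m μ + if μ = α then 1 else 0) hmono (ha 0) hle S (by
    intro μ _
    rw [hβ μ]
    by_cases h : μ = α
    · subst h
      simpa using hlt
    · simpa [h] using hm_le μ)
  have h1 : ∑ μ ∈ S, (m μ + if μ = α then 1 else 0) = ∑ μ ∈ S, m μ + 1 := by
    rw [Finset.sum_add_distrib, Finset.sum_ite_eq' S α, if_pos hαS]
  have h2 : ∑ μ ∈ S, ((m μ + if μ = α then 1 else 0 : ℕ) : ℝ) * val μ =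
      ∑ μ ∈ S, (m μ : ℝ) * val μ + val α := by
    have h3 : ∀ μ ∈ S, ((m μ + if μ = α then 1 else 0 : ℕ) : ℝ) * val μ =
        (m μ : ℝ) * val μ + if μ = α then val α else 0 := by
      intro μ _
      by_cases h : μ = α
      · subst h
        simp
        ring
      · simp [h]
    rw [Finset.sum_congr rfl h3, Finset.sum_add_distrib, Finset.sum_ite_eq' S α, if_pos hαS]
  rw [h1, h2, hsplit val] at hmain
  have h3 : ∑ μ ∈ S0, (m μ : ℝ) * val μ = 0 :=
    Finset.sum_eq_zero fun μ hμ => by rw [hzero μ hμ, mul_zero]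
  have h4 := hsplit (fun _ => 1)
  have h5 : ((∑ μ ∈ S, m μ : ℕ) : ℝ) = ∑ μ ∈ S, (m μ : ℝ) * 1 := by
    push_cast
    simp
  have h6 : (finrank Ω (X.W k 0) : ℝ) ≤ ∑ μ ∈ S0, (m μ : ℝ) * 1 := by
    have : ((∑ μ ∈ S0, m μ : ℕ) : ℝ) = ∑ μ ∈ S0, (m μ : ℝ) * 1 := by
      push_cast
      simp
    rw [← this]
    exact_mod_cast hW0
  have h7 : (finrank Ω (X.W k 1) : ℝ) ≤ ∑ μ ∈ S, (m μ : ℝ) * 1 := by
    rw [← h5]
    exact_mod_cast hW1
  have h8 : (2 : ℝ) * hdg 0 ≤ finrank Ω (X.W k 0) + finrank Ω (X.W k 1) := by exact_mod_cast hW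
  push_cast at hmain
  simp only [mul_one] at *
  linarith

end Pool.Agent.T2h11.WMP
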